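import Pool.Agent.Q169.ZD.Stm2

/-!
# Project ZD: the bridge, part 1: cells of the chamber and the finite complex over `W ⋊ H`
-/

set_option autoImplicit false
set_option linter.unusedSectionVars false

namespace Pool.Agent.V5helper85.ZD

open Pool.Agent.Q169.ZD

noncomputable section

variable {B H : Type} [Group H] [MulAction H B] (Y : Mirrored H B)

/-! ### the decomposition of the cells -/

/-- cells are translates of the representatives, in a unique way -/
def dq (i : ℕ) : H × Fin (Y.c i) ≃ Y.E i :=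
  Equiv.ofBijective (fun x => x.1 • Y.rep i x.2) (by
    constructor
    · rintro ⟨h, a⟩ ⟨h', a'⟩ he
      simp only at he
      obtain ⟨b, hb, hu⟩ := Y.rep_unique i (h • Y.rep i a)
      have h1 : a = b := hu a ⟨h, rfl⟩
      have h2 : a' = b := hu a' ⟨h', he.symm⟩
      subst h1
      subst h2
      have h3 : (h'⁻¹ * h) • Y.rep i a' = Y.rep i a' := by
        rw [mul_smul, he, inv_smul_smul]
      have h4 := Y.free i _ _ h3
      rw [inv_mul_eq_one] at h4
      rw [h4]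
    · intro e
      obtain ⟨b, ⟨h, hb⟩, -⟩ := Y.rep_unique i e
      exact ⟨(h, b), hb⟩)

theorem dq_apply (i : ℕ) (h : H) (a : Fin (Y.c i)) : dq Y i (h, a) = h • Y.rep i a := rfl

/-- the representative and the group element of a cell -/
def dec (i : ℕ) (e : Y.E i) : H × Fin (Y.c i) := (dq Y i).symm e

theorem dec_spec (i : ℕ) (e : Y.E i) : (dec Y i e).1 • Y.rep i (dec Y i e).2 = e := by
  have h : dq Y i (dec Y i e) = e := (dq Y i).apply_symm_apply e
  rw [← dq_apply]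
  exact h

theorem dec_eq (i : ℕ) (h : H) (a : Fin (Y.c i)) : dec Y i (h • Y.rep i a) = (h, a) := by
  rw [← dq_apply]
  exact (dq Y i).symm_apply_apply _

theorem dec_rep (i : ℕ) (a : Fin (Y.c i)) : dec Y i (Y.rep i a) = (1, a) := by
  conv_lhs => rw [← one_smul H (Y.rep i a)]
  exact dec_eq Y i 1 a

theorem dec_smul (i : ℕ) (h : H) (e : Y.E i) :
    dec Y i (h • e) = (h * (dec Y i e).1, (dec Y i e).2) := by
  conv_lhs => rw [← dec_spec Y i e, ← mul_smul]
  rw [dec_eq]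

theorem dim_lt (i : ℕ) (e : Y.E i) : i < Y.len + 1 := by
  by_contra h
  exact (Y.isEmpty i (by omega)).false e

/-! ### incidence numbers -/

/-- the incidence number of two cells -/
def inc : (Σ i, Y.E i) → (Σ i, Y.E i) → ℤ
  | ⟨0, _⟩, _ => 0
  | ⟨i + 1, e⟩, ⟨j, f⟩ => if h : j = i then Y.bd i e (h ▸ f) else 0

theorem inc_zero (e : Y.E 0) (y : Σ i, Y.E i) : inc Y ⟨0, e⟩ y = 0 := rfl

theorem inc_self (i : ℕ) (e : Y.E (i + 1)) (f : Y.E i) : inc Y ⟨i + 1, e⟩ ⟨i, f⟩ = Y.bd i e f := by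
  change (if h : i = i then Y.bd i e (h ▸ f) else 0) = _
  rw [dif_pos rfl]

theorem inc_ne {i j : ℕ} (h : j ≠ i) (e : Y.E (i + 1)) (f : Y.E j) :
    inc Y ⟨i + 1, e⟩ ⟨j, f⟩ = 0 := by
  change (if h : j = i then Y.bd i e (h ▸ f) else 0) = _
  rw [dif_neg h]

theorem inc_fin (x : Σ i, Y.E i) : {y | inc Y x y ≠ 0}.Finite := by
  obtain ⟨i, e⟩ := x
  cases i with
  | zero =>
    have : {y | inc Y ⟨0, e⟩ y ≠ 0} = ∅ := by
      ext y
      simp [inc_zero]
    rw [this]
    exact Set.finite_empty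
  | succ i =>
    refine ((Y.bd i e).support.finite_toSet.image fun f => (⟨i, f⟩ : Σ i, Y.E i)).subset ?_
    rintro ⟨j, f⟩ hy
    by_cases h : j = i
    · subst h
      refine ⟨f, ?_, rfl⟩
      rw [Set.mem_setOf_eq, inc_self] at hy
      exact Finsupp.mem_support_iff.2 hy
    · exact absurd (inc_ne Y h e f) hy

variable {M : CoxeterMatrix B} {W : Type} [Group W] (cs : CoxeterSystem M W) (φ : H →* MulAut W)

/-- the index set of the finite complex -/
abbrev Ix : Type := Σ i : Fin (Y.len + 1), Fin (Y.c i)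

/-- the representing cell -/
def rc (j : Ix Y) : Σ i, Y.E i := ⟨j.1, Y.rep j.1 j.2⟩

/-- the translate of a cell -/
def tc (h : H) (x : Σ i, Y.E i) : Σ i, Y.E i := ⟨x.1, h • x.2⟩

open Classical in
/-- the incidence numbers as elements of the group ring -/
def DD (j k : Ix Y) : W ⋊[φ] H →₀ ℤ :=
  Finsupp.ofSupportFinite (fun g => if g.left = 1 then inc Y (rc Y j) (tc Y g.right (rc Y k)) else 0)
    (by
      have h1 : {h : H | inc Y (rc Y j) (tc Y h (rc Y k)) ≠ 0}.Finite := by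
        refine Set.Finite.preimage (f := fun h : H => tc Y h (rc Y k)) ?_ (inc_fin Y (rc Y j))
        intro h _ h' _ he
        have h2 : h • Y.rep k.1 k.2 = h' • Y.rep k.1 k.2 := by
          have : tc Y h (rc Y k) = tc Y h' (rc Y k) := he
          unfold tc rc at this
          simpa using this
        have h3 : (h'⁻¹ * h) • Y.rep k.1 k.2 = Y.rep k.1 k.2 := by
          rw [mul_smul, h2, inv_smul_smul]
        have h4 := Y.free _ _ _ h3
        rw [inv_mul_eq_one] at h4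
        exact h4.symm
      refine (h1.image fun h => (SemidirectProduct.inr h : W ⋊[φ] H)).subset ?_
      intro g hg
      rw [Function.mem_support] at hg
      by_cases hl : g.left = 1
      · rw [if_pos hl] at hg
        refine ⟨g.right, hg, ?_⟩
        apply SemidirectProduct.ext
        · rw [hl]; rfl
        · rfl
      · rw [if_neg hl] at hg
        exact absurd rfl hg)

open Classical in
theorem DD_apply (j k : Ix Y) (g : W ⋊[φ] H) :
    DD Y φ j k g = if g.left = 1 then inc Y (rc Y j) (tc Y g.right (rc Y k)) else 0 := rfl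

theorem DD_ne {j k : Ix Y} {g : W ⋊[φ] H} (h : DD Y φ j k g ≠ 0) :
    g = SemidirectProduct.inr g.right ∧ inc Y (rc Y j) (tc Y g.right (rc Y k)) ≠ 0 := by
  classical
  rw [DD_apply] at h
  by_cases hl : g.left = 1
  · rw [if_pos hl] at h
    refine ⟨?_, h⟩
    apply SemidirectProduct.ext
    · rw [hl]; rfl
    · rfl
  · rw [if_neg hl] at h
    exact absurd rfl h

theorem DD_inr (j k : Ix Y) (h : H) :
    DD Y φ j k (SemidirectProduct.inr h) = inc Y (rc Y j) (tc Y h (rc Y k)) := by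
  classical
  rw [DD_apply, if_pos (SemidirectProduct.left_inr h)]
  rfl

theorem inc_deg {x y : Σ i, Y.E i} (h : inc Y x y ≠ 0) : x.1 = y.1 + 1 := by
  obtain ⟨i, e⟩ := x
  obtain ⟨j, f⟩ := y
  cases i with
  | zero => exact absurd (inc_zero Y e _) h
  | succ i =>
    by_contra hne
    apply h
    exact inc_ne Y (fun hji => hne (by simp [hji])) e f

/-! ### functions on the cells of the chamber -/

/-- the extension of a function to all cells of the chamber -/
def Fe (F : Ix Y × (W ⋊[φ] H) → ℂ) (i : ℕ) (e : Y.E i) (g : W ⋊[φ] H) : ℂ :=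
  F (⟨⟨i, dim_lt Y i e⟩, (dec Y i e).2⟩, (SemidirectProduct.inr (dec Y i e).1)⁻¹ * g)

theorem Fe_rep (F : Ix Y × (W ⋊[φ] H) → ℂ) (j : Ix Y) (g : W ⋊[φ] H) :
    Fe Y φ F j.1 (Y.rep j.1 j.2) g = F (j, g) := by
  obtain ⟨⟨i, hi⟩, a⟩ := j
  have h : dec Y i (Y.rep i a) = (1, a) := dec_rep Y i a
  unfold Fe
  simp only
  rw [h]
  simp

theorem Fe_smul (F : Ix Y × (W ⋊[φ] H) → ℂ) (i : ℕ) (e : Y.E i) (h : H) (g : W ⋊[φ] H) :
    Fe Y φ F i e ((SemidirectProduct.inr h)⁻¹ * g) = Fe Y φ F i (h • e) g := by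
  unfold Fe
  rw [dec_smul]
  simp only
  rw [← mul_assoc, ← mul_inv_rev, ← map_mul]

theorem dop_zero (F : Ix Y × (W ⋊[φ] H) → ℂ) (j : Ix Y) (hj : (j.1 : ℕ) = 0) (g : W ⋊[φ] H) :
    dop (DD Y φ) F (j, g) = 0 := by
  unfold dop
  refine Finset.sum_eq_zero fun k _ => ?_
  refine Finset.sum_eq_zero fun h hh => ?_
  exfalso
  rw [Finsupp.mem_support_iff] at hh
  have h1 := inc_deg Y (DD_ne Y φ hh).2
  have h2 : (rc Y j).1 = 0 := hj
  have h3 : (rc Y j).1 = _ + 1 := h1
  rw [h2] at h3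
  exact absurd h3.symm (Nat.succ_ne_zero _)

theorem dop_succ (F : Ix Y × (W ⋊[φ] H) → ℂ) (i : ℕ) (hi : i + 1 < Y.len + 1)
    (a : Fin (Y.c (i + 1))) (g : W ⋊[φ] H) :
    dop (DD Y φ) F (⟨⟨i + 1, hi⟩, a⟩, g) =
      (Y.bd i (Y.rep (i + 1) a)).sum fun f n => (n : ℂ) * Fe Y φ F i f g := by
  unfold dop
  rw [Finset.sum_sigma', Finsupp.sum]
  symm
  refine Finset.sum_bij (fun f _ => ⟨⟨⟨i, dim_lt Y i f⟩, (dec Y i f).2⟩,
    SemidirectProduct.inr (dec Y i f).1⟩) ?_ ?_ ?_ ?_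
  · intro f hf
    rw [Finset.mem_sigma, Finsupp.mem_support_iff]
    refine ⟨Finset.mem_univ _, ?_⟩
    rw [DD_inr]
    have h1 : inc Y (rc Y ⟨⟨i + 1, hi⟩, a⟩) (tc Y (dec Y i f).1 (rc Y ⟨⟨i, dim_lt Y i f⟩,
        (dec Y i f).2⟩)) = Y.bd i (Y.rep (i + 1) a) f := by
      refine (inc_self Y i (Y.rep (i + 1) a) ((dec Y i f).1 • Y.rep i (dec Y i f).2)).trans ?_
      rw [dec_spec]
    rw [h1]
    exact Finsupp.mem_support_iff.1 hf
  · intro f _ f' _ he
    simp only [Sigma.mk.injEq] at he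
    obtain ⟨h1, h2⟩ := he
    have h3 : (dec Y i f).2 = (dec Y i f').2 := by
      simpa using h1
    have h4 : (dec Y i f).1 = (dec Y i f').1 := by
      have := eq_of_heq h2
      exact SemidirectProduct.inr_injective this
    rw [← dec_spec Y i f, ← dec_spec Y i f', h3, h4]
  · rintro ⟨⟨⟨i', hi'⟩, b⟩, h⟩ hp
    rw [Finset.mem_sigma, Finsupp.mem_support_iff] at hp
    obtain ⟨h1, h2⟩ := DD_ne Y φ hp.2
    have h3 : i + 1 = i' + 1 := inc_deg Y h2
    have h4 : i' = i := by omega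
    subst h4
    refine ⟨h.right • Y.rep i' b, ?_, ?_⟩
    · rw [Finsupp.mem_support_iff]
      intro h5
      apply h2
      refine (inc_self Y i' (Y.rep (i' + 1) a) (h.right • Y.rep i' b)).trans h5
    · have h6 : dec Y i' (h.right • Y.rep i' b) = (h.right, b) := dec_eq Y i' _ b
      simp only [h6]
      rw [← h1]
  · intro f hf
    have h1 : DD Y φ ⟨⟨i + 1, hi⟩, a⟩ ⟨⟨i, dim_lt Y i f⟩, (dec Y i f).2⟩
        (SemidirectProduct.inr (dec Y i f).1) = Y.bd i (Y.rep (i + 1) a) f := by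
      rw [DD_inr]
      refine (inc_self Y i (Y.rep (i + 1) a) ((dec Y i f).1 • Y.rep i (dec Y i f).2)).trans ?_
      rw [dec_spec]
    rw [h1]
    rfl

theorem Fe_dop_zero (F : Ix Y × (W ⋊[φ] H) → ℂ) (e : Y.E 0) (g : W ⋊[φ] H) :
    Fe Y φ (dop (DD Y φ) F) 0 e g = 0 := by
  unfold Fe
  exact dop_zero Y φ F _ rfl _

theorem Fe_dop_succ (F : Ix Y × (W ⋊[φ] H) → ℂ) (i : ℕ) (e : Y.E (i + 1)) (g : W ⋊[φ] H) :
    Fe Y φ (dop (DD Y φ) F) (i + 1) e g =
      (Y.bd i e).sum fun f n => (n : ℂ) * Fe Y φ F i f g := by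
  have h1 := dop_succ Y φ F i (dim_lt Y (i + 1) e) (dec Y (i + 1) e).2
    ((SemidirectProduct.inr (dec Y (i + 1) e).1)⁻¹ * g)
  unfold Fe at h1 ⊢
  refine h1.trans ?_
  have h2 : Y.bd i e = (Y.bd i (Y.rep (i + 1) (dec Y (i + 1) e).2)).mapDomain
      (fun f => (dec Y (i + 1) e).1 • f) := by
    rw [← Y.bd_smul, dec_spec]
  rw [h2, Finsupp.sum_mapDomain_index (fun _ => by simp) (fun _ _ _ => by push_cast; ring)]
  refine Finsupp.sum_congr fun f _ => ?_
  congr 1
  exact Fe_smul Y φ F i f (dec Y (i + 1) e).1 g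

end

end Pool.Agent.V5helper85.ZD
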