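import Pool.Agent.V5helper85.ZD.Brg1

/-!
# Project ZD: the bridge, part 2: the finite complex
-/

set_option autoImplicit false
set_option linter.unusedSectionVars false

namespace Pool.Agent.V5helper85.ZD

open Pool.Agent.Q169.ZD
open Pool.Agent.TH38.CX (AcyclicGComplex)

noncomputable section

variable {B H : Type} [Group H] [MulAction H B] (Y : Mirrored H B)
variable {M : CoxeterMatrix B} {W : Type} [Group W] (cs : CoxeterSystem M W) (φ : H →* MulAut W)

/-- the conclusions of the job CELL -/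
structure Cel (U : AcyclicGComplex (W ⋊[φ] H)) (κ : ∀ i, Y.E i → W → U.E i) : Prop where
  surj : ∀ i (x : U.E i), ∃ e w, x = κ i e w
  inj : ∀ i e e' w w', κ i e w = κ i e' w' ↔ e = e' ∧ w⁻¹ * w' ∈ par cs (Y.mir i e)
  act : ∀ i (g : W ⋊[φ] H) e w, g • κ i e w = κ i (g.right • e) (g.left * φ g.right w)
  bd : ∀ i e w, U.bd i (Finsupp.single (κ (i + 1) e w) 1) =
    (Y.bd i e).mapDomain (fun f => κ i f w)

variable {U : AcyclicGComplex (W ⋊[φ] H)} {κ : ∀ i, Y.E i → W → U.E i}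

theorem κ_inj (hU : Cel Y cs φ U κ) (i : ℕ) (w : W) : Function.Injective fun e => κ i e w :=
  fun e e' h => ((hU.inj i e e' w w).1 h).1

/-- `∂ ∂ = 0` in the chamber -/
theorem bdbd (hU : Cel Y cs φ U κ) (i : ℕ) (e : Y.E (i + 2)) :
    ((Y.bd (i + 1) e).sum fun f n => n • Y.bd i f) = 0 := by
  have h1 : U.bd i (U.bd (i + 1) (Finsupp.single (κ (i + 2) e 1) 1)) = 0 :=
    (U.exact_succ i _).2 ⟨_, rfl⟩
  rw [hU.bd] at h1
  have h2 : ∀ z : Y.E (i + 1) →₀ ℤ, U.bd i (z.mapDomain (fun f => κ (i + 1) f 1)) =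
      (z.sum fun f n => n • Y.bd i f).mapDomain (fun f => κ i f 1) := by
    intro z
    induction z using Finsupp.induction_linear with
    | zero => simp
    | add x y hx hy =>
      rw [Finsupp.mapDomain_add, map_add, hx, hy, ← Finsupp.mapDomain_add,
        Finsupp.sum_add_index' (h := fun f n => n • Y.bd i f) (fun _ => zero_smul ℤ _)
          (fun _ _ _ => add_smul _ _ _)]
    | single f n =>
      rw [Finsupp.mapDomain_single,
        Finsupp.sum_single_index (h := fun f n => n • Y.bd i f) (zero_smul ℤ _)]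
      have h3 : Finsupp.single (κ (i + 1) f 1) n = n • Finsupp.single (κ (i + 1) f 1) (1 : ℤ) := by
        rw [Finsupp.smul_single, smul_eq_mul, mul_one]
      rw [h3, map_zsmul, hU.bd]
      exact (_root_.map_zsmul (Finsupp.mapDomain.addMonoidHom (fun f : Y.E i => κ i f 1)) n
        (Y.bd i f)).symm
  rw [h2] at h1
  refine Finsupp.mapDomain_injective (κ_inj Y cs φ hU i 1) ?_
  rw [h1, Finsupp.mapDomain_zero]

theorem sum_lin {α β : Type} (x : α →₀ ℤ) (b : α → (β →₀ ℤ)) (v : β → ℂ) :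
    (x.sum fun f n => (n : ℂ) * (b f).sum fun f' n' => (n' : ℂ) * v f') =
      (x.sum fun f n => n • b f).sum fun f' n' => (n' : ℂ) * v f' := by
  let L : (β →₀ ℤ) →+ ℂ := Finsupp.liftAddHom fun f' => (AddMonoidHom.mulRight (v f')).comp
    (Int.castAddHom ℂ)
  have hL : ∀ z : β →₀ ℤ, (z.sum fun f' n' => (n' : ℂ) * v f') = L z := fun z => rfl
  simp only [hL]
  rw [Finsupp.sum, Finsupp.sum, map_sum]
  refine Finset.sum_congr rfl fun f _ => ?_
  rw [map_zsmul, zsmul_eq_mul]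

theorem dop_sq (hU : Cel Y cs φ U κ) (F : Ix Y × (W ⋊[φ] H) → ℂ) :
    dop (DD Y φ) (dop (DD Y φ) F) = 0 := by
  funext ⟨⟨⟨i, hi⟩, a⟩, g⟩
  cases i with
  | zero => exact dop_zero Y φ _ _ rfl g
  | succ i =>
    rw [dop_succ]
    cases i with
    | zero =>
      refine Finset.sum_eq_zero fun f _ => ?_
      exact (congrArg (fun z => (((Y.bd 0 (Y.rep (0 + 1) a)) f : ℤ) : ℂ) * z)
        (Fe_dop_zero Y φ F f g)).trans (mul_zero _)
    | succ i =>
      have h1 : ((Y.bd (i + 1) (Y.rep (i + 2) a)).sum fun f n =>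
          (n : ℂ) * Fe Y φ (dop (DD Y φ) F) (i + 1) f g) =
          (Y.bd (i + 1) (Y.rep (i + 2) a)).sum fun f n =>
            (n : ℂ) * (Y.bd i f).sum fun f' n' => (n' : ℂ) * Fe Y φ F i f' g :=
        Finsupp.sum_congr fun f _ => by rw [Fe_dop_succ]
      refine h1.trans ?_
      rw [sum_lin, bdbd Y cs φ hU]
      rfl

/-- the subgroup `W_T`, `T` the mirrors of the cell `j`, as a subgroup of `W ⋊ H` -/
def TT (j : Ix Y) : Set (W ⋊[φ] H) :=
  {s | ∃ b ∈ Y.mir j.1 (Y.rep j.1 j.2), s = ⟨cs.simple b, 1⟩}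

theorem closure_TT (j : Ix Y) : Subgroup.closure (TT Y cs φ j) =
    (par cs (Y.mir j.1 (Y.rep j.1 j.2))).map (SemidirectProduct.inl : W →* W ⋊[φ] H) := by
  unfold par
  rw [MonoidHom.map_closure]
  congr 1
  ext s
  constructor
  · rintro ⟨b, hb, rfl⟩
    exact ⟨cs.simple b, ⟨b, hb, rfl⟩, rfl⟩
  · rintro ⟨_, ⟨b, hb, rfl⟩, rfl⟩
    exact ⟨b, hb, rfl⟩

variable (hφ : ∀ h b, φ h (cs.simple b) = cs.simple (h • b))
  (hpf : ∀ i e, Finite (par cs (Y.mir i e)))

include hφ in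
theorem DD_mir (j k : Ix Y) (h : W ⋊[φ] H) (hD : DD Y φ j k h ≠ 0) (t : W ⋊[φ] H)
    (ht : t ∈ TT Y cs φ j) : h⁻¹ * t * h ∈ TT Y cs φ k := by
  obtain ⟨h1, h2⟩ := DD_ne Y φ hD
  obtain ⟨b, hb, rfl⟩ := ht
  obtain ⟨⟨i, hi⟩, a⟩ := j
  obtain ⟨⟨i', hi'⟩, a'⟩ := k
  have h3 : i = i' + 1 := inc_deg Y h2
  subst h3
  have h4 : Y.bd i' (Y.rep (i' + 1) a) (h.right • Y.rep i' a') ≠ 0 := by
    intro h5
    exact h2 ((inc_self Y i' (Y.rep (i' + 1) a) (h.right • Y.rep i' a')).trans h5)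
  have h5 := Y.mir_face i' _ _ h4 hb
  rw [Y.mir_smul] at h5
  obtain ⟨b', hb', rfl⟩ := h5
  refine ⟨b', hb', ?_⟩
  rw [h1]
  apply SemidirectProduct.ext
  · simp only [SemidirectProduct.mul_left, SemidirectProduct.inv_left, SemidirectProduct.inv_right,
      SemidirectProduct.left_inr, SemidirectProduct.right_inr, inv_one, map_one, one_mul, mul_one]
    rw [← hφ, ← MulAut.mul_apply, ← map_mul, inv_mul_cancel, map_one]
    rfl
  · simp

/-- the finite complex -/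
def CX (hU : Cel Y cs φ U κ) {E : Ext (W ⋊[φ] H)} (hS : E.S = {s | ∃ b : B, s = ⟨cs.simple b, 1⟩})
    (hL : ∀ g, E.len g = cs.length g.left) : Cx E (Ix Y) where
  T j := TT Y cs φ j
  sub j := by
    rintro _ ⟨b, -, rfl⟩
    rw [hS]
    exact ⟨b, rfl⟩
  fin j := by
    rw [closure_TT, Subgroup.coe_map]
    have := hpf j.1 (Y.rep j.1 j.2)
    exact (Set.toFinite ((par cs (Y.mir j.1 (Y.rep j.1 j.2)) : Subgroup W) : Set W)).image _
  deg j := j.1
  D := DD Y φ
  D_len j k h hD := by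
    rw [(DD_ne Y φ hD).1, hL, SemidirectProduct.left_inr, cs.length_one]
  D_deg j k h hD := inc_deg Y (DD_ne Y φ hD).2
  D_mir j k h hD t ht := DD_mir Y cs φ hφ j k h hD t ht
  D_sq F := dop_sq Y cs φ hU F

end

end Pool.Agent.V5helper85.ZD
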