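import Pool.Agent.V5helper85.ZD.Brg2

/-!
# Project ZD: the bridge, part 3: exactness of the finite complex
-/

set_option autoImplicit false
set_option linter.unusedSectionVars false

namespace Pool.Agent.V5helper85.ZD

open Pool.Agent.Q169.ZD
open Pool.Agent.TH38.CX (AcyclicGComplex)
open Pool.Agent.H496R3.ZS (Ell)

noncomputable section

/-! ### summability along maps with finite fibres -/

theorem summable_comp {α β : Type} (f : α → β) (m : ℕ)
    (hf : ∀ (s : Finset α) (b : β), (∀ a ∈ s, f a = b) → s.card ≤ m) (g : β → ℝ)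
    (hg : ∀ b, 0 ≤ g b) (hs : Summable g) : Summable fun a => g (f a) := by
  classical
  refine summable_of_sum_le (c := m * ∑' b, g b) (fun a => hg _) fun s => ?_
  rw [Finset.sum_comp g f]
  refine le_trans (b := ∑ b ∈ s.image f, (m : ℝ) * g b) (Finset.sum_le_sum fun b _ => ?_) ?_
  · rw [nsmul_eq_mul]
    refine mul_le_mul_of_nonneg_right ?_ (hg b)
    exact_mod_cast hf _ b fun a ha => (Finset.mem_filter.1 ha).2
  · rw [← Finset.mul_sum]
    exact mul_le_mul_of_nonneg_left (hs.sum_le_tsum _ fun b _ => hg b) (Nat.cast_nonneg m)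

variable {B H : Type} [Group H] [MulAction H B] (Y : Mirrored H B)
variable {M : CoxeterMatrix B} {W : Type} [Group W] (cs : CoxeterSystem M W) (φ : H →* MulAut W)
variable {U : AcyclicGComplex (W ⋊[φ] H)} {κ : ∀ i, Y.E i → W → U.E i}
variable (hφ : ∀ h b, φ h (cs.simple b) = cs.simple (h • b))
  (hpf : ∀ i e, Finite (par cs (Y.mir i e)))
  (hU : Cel Y cs φ U κ) {E : Ext (W ⋊[φ] H)} (hS : E.S = {s | ∃ b : B, s = ⟨cs.simple b, 1⟩})
  (hL : ∀ g, E.len g = cs.length g.left)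

include hφ in
theorem phi_par (h : H) (T : Set B) {u : W} (hu : u ∈ par cs ((fun b => h • b) '' T)) :
    φ h⁻¹ u ∈ par cs T := by
  have h1 : par cs ((fun b => h • b) '' T) ≤ (par cs T).comap (φ h⁻¹).toMonoidHom := by
    unfold par
    rw [Subgroup.closure_le]
    rintro _ ⟨_, ⟨b, hb, rfl⟩, rfl⟩
    change φ h⁻¹ (cs.simple (h • b)) ∈ Subgroup.closure (cs.simple '' T)
    rw [hφ, inv_smul_smul]
    exact Subgroup.subset_closure ⟨b, hb, rfl⟩
  exact h1 hu

/-- invariance of the members of `M(1)` -/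
theorem inM_inv (F : Ix Y × (W ⋊[φ] H) → ℂ)
    (hF : InM (CX Y cs φ hφ hpf hU hS hL) (fun _ => 1) F) (j : Ix Y) {u : W ⋊[φ] H}
    (hu : u ∈ Subgroup.closure (TT Y cs φ j)) : ∀ g, F (j, u * g) = F (j, g) := by
  have hstep : ∀ t ∈ TT Y cs φ j, ∀ g, F (j, t * g) = F (j, g) := by
    intro t ht g
    have htS : t ∈ E.S := (CX Y cs φ hφ hpf hU hS hL).sub j ht
    have h1 : ∀ g, E.len g < E.len (t * g) → F (j, t * g) = F (j, g) := by
      intro g hg
      have := hF j t ht g hg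
      rw [Real.sqrt_one] at this
      simpa using this
    rcases E.len_smul t htS g with h | h
    · exact h1 g (by omega)
    · have h2 := h1 (t * g) (by
        rw [← mul_assoc, E.sq t htS, one_mul]
        omega)
      rw [← mul_assoc, E.sq t htS, one_mul] at h2
      exact h2.symm
  induction hu using Subgroup.closure_induction with
  | mem x hx => exact hstep x hx
  | one => intro g; rw [one_mul]
  | mul x y _ _ hx hy => intro g; rw [mul_assoc, hx, hy]
  | inv x _ hx =>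
    intro g
    have := hx (x⁻¹ * g)
    rw [mul_inv_cancel_left] at this
    exact this.symm

theorem par_mir_rep (i : ℕ) (e : Y.E i) : Y.mir i e = (fun b => (dec Y i e).1 • b) ''
    Y.mir i (Y.rep i (dec Y i e).2) := by
  rw [← Y.mir_smul, dec_spec]

/-- independence of the choice of `w` -/
theorem Fe_indep (F : Ix Y × (W ⋊[φ] H) → ℂ)
    (hF : InM (CX Y cs φ hφ hpf hU hS hL) (fun _ => 1) F) (i : ℕ) (e : Y.E i) (w w' : W)
    (h : w⁻¹ * w' ∈ par cs (Y.mir i e)) :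
    Fe Y φ F i e (SemidirectProduct.inl w')⁻¹ = Fe Y φ F i e (SemidirectProduct.inl w)⁻¹ := by
  set j : Ix Y := ⟨⟨i, dim_lt Y i e⟩, (dec Y i e).2⟩ with hj
  set η := (dec Y i e).1 with hη
  have h1 : φ η⁻¹ (w⁻¹ * w') ∈ par cs (Y.mir i (Y.rep i (dec Y i e).2)) := by
    rw [par_mir_rep Y] at h
    exact phi_par cs φ hφ η _ h
  have h2 : (SemidirectProduct.inl (φ η⁻¹ (w⁻¹ * w')) : W ⋊[φ] H)⁻¹ ∈
      Subgroup.closure (TT Y cs φ j) := by
    rw [closure_TT]
    exact inv_mem ⟨_, h1, rfl⟩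
  have h3 := inM_inv Y cs φ hφ hpf hU hS hL F hF j h2
    ((SemidirectProduct.inr η : W ⋊[φ] H)⁻¹ * (SemidirectProduct.inl w)⁻¹)
  unfold Fe
  rw [← h3]
  congr 2
  have h4 : (SemidirectProduct.inl (φ η⁻¹ (w⁻¹ * w')) : W ⋊[φ] H) =
      (SemidirectProduct.inr η)⁻¹ * SemidirectProduct.inl (w⁻¹ * w') * SemidirectProduct.inr η := by
    have := SemidirectProduct.inl_aut (φ := φ) η⁻¹ (w⁻¹ * w')
    rw [this, map_inv, inv_inv]
  change (SemidirectProduct.inr η : W ⋊[φ] H)⁻¹ * (SemidirectProduct.inl w')⁻¹ =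
    (SemidirectProduct.inl (φ η⁻¹ (w⁻¹ * w')))⁻¹ *
      ((SemidirectProduct.inr η)⁻¹ * (SemidirectProduct.inl w)⁻¹)
  rw [h4]
  simp only [map_mul, map_inv, mul_inv_rev, inv_inv]
  group

/-- the cochain of a function -/
def cch (F : Ix Y × (W ⋊[φ] H) → ℂ) (i : ℕ) (x : U.E i) : ℂ :=
  Fe Y φ F i (hU.surj i x).choose (SemidirectProduct.inl (hU.surj i x).choose_spec.choose)⁻¹

theorem cch_κ (F : Ix Y × (W ⋊[φ] H) → ℂ)
    (hF : InM (CX Y cs φ hφ hpf hU hS hL) (fun _ => 1) F) (i : ℕ) (e : Y.E i) (w : W) :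
    cch Y cs φ hU F i (κ i e w) = Fe Y φ F i e (SemidirectProduct.inl w)⁻¹ := by
  unfold cch
  have hs := (hU.surj i (κ i e w)).choose_spec.choose_spec
  generalize (hU.surj i (κ i e w)).choose_spec.choose = w' at hs ⊢
  generalize (hU.surj i (κ i e w)).choose = e' at hs ⊢
  obtain ⟨rfl, h2⟩ := (hU.inj i e e' w w').1 hs
  exact Fe_indep Y cs φ hφ hpf hU hS hL F hF i e w w' h2

theorem κ_smul (i : ℕ) (a : Fin (Y.c i)) (g : W ⋊[φ] H) (hU : Cel Y cs φ U κ) :
    g • κ i (Y.rep i a) 1 = κ i (g.right • Y.rep i a) g.left := by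
  rw [hU.act, map_one, mul_one]

theorem cch_rep (F : Ix Y × (W ⋊[φ] H) → ℂ)
    (hF : InM (CX Y cs φ hφ hpf hU hS hL) (fun _ => 1) F) (j : Ix Y) (g : W ⋊[φ] H) :
    cch Y cs φ hU F j.1 (g⁻¹ • κ j.1 (Y.rep j.1 j.2) 1) = F (j, g) := by
  rw [κ_smul Y cs φ _ _ _ hU, cch_κ Y cs φ hφ hpf hU hS hL F hF, ← Fe_smul, Fe_rep]
  congr 2
  rw [← mul_inv_rev, SemidirectProduct.inl_left_mul_inr_right, inv_inv]

theorem cch_mem (F : Ell (Ix Y × (W ⋊[φ] H))) (i : ℕ) :
    Memℓp (cch Y cs φ hU F i) 2 := by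
  have hF : Memℓp (F : Ix Y × (W ⋊[φ] H) → ℂ) 2 := lp.memℓp F
  rw [memℓp_gen_iff (by norm_num)] at hF ⊢
  have hinj : Function.Injective fun x : U.E i =>
      (((⟨⟨i, dim_lt Y i (hU.surj i x).choose⟩, (dec Y i (hU.surj i x).choose).2⟩ : Ix Y),
        (SemidirectProduct.inr (dec Y i (hU.surj i x).choose).1)⁻¹ *
          (SemidirectProduct.inl (hU.surj i x).choose_spec.choose)⁻¹) : Ix Y × (W ⋊[φ] H)) := by
    intro x y hxy
    have hx := (hU.surj i x).choose_spec.choose_spec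
    have hy := (hU.surj i y).choose_spec.choose_spec
    simp only [Prod.mk.injEq, Sigma.mk.injEq] at hxy
    obtain ⟨⟨-, h1⟩, h2⟩ := hxy
    have h1' : (dec Y i (hU.surj i x).choose).2 = (dec Y i (hU.surj i y).choose).2 := by
      simpa using h1
    rw [← mul_inv_rev, ← mul_inv_rev, inv_inj] at h2
    have h3 := congrArg SemidirectProduct.left h2
    have h4 := congrArg SemidirectProduct.right h2
    simp only [SemidirectProduct.mul_left, SemidirectProduct.left_inl, SemidirectProduct.right_inl,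
      SemidirectProduct.left_inr, map_one, mul_one] at h3
    simp only [SemidirectProduct.mul_right, SemidirectProduct.right_inl,
      SemidirectProduct.right_inr, one_mul] at h4
    have h5 : (hU.surj i x).choose = (hU.surj i y).choose := by
      rw [← dec_spec Y i (hU.surj i x).choose, ← dec_spec Y i (hU.surj i y).choose, h1', h4]
    exact hx.trans ((congrArg₂ (κ i) h5 h3).trans hy.symm)
  exact hF.comp_injective hinj

theorem cch_cob (F : Ix Y × (W ⋊[φ] H) → ℂ)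
    (hF : InM (CX Y cs φ hφ hpf hU hS hL) (fun _ => 1) F)
    (h0 : dop (DD Y φ) F = 0) (i : ℕ) (x : U.E (i + 1)) :
    ((U.bd i (Finsupp.single x 1)).sum fun f n => ((n : ℤ) : ℂ) * cch Y cs φ hU F i f) = 0 := by
  obtain ⟨e, w, rfl⟩ := hU.surj (i + 1) x
  rw [hU.bd, Finsupp.sum_mapDomain_index (fun _ => by simp) (fun _ _ _ => by push_cast; ring)]
  have h1 : ((Y.bd i e).sum fun f n => ((n : ℤ) : ℂ) * cch Y cs φ hU F i (κ i f w)) =
      (Y.bd i e).sum fun f n => ((n : ℤ) : ℂ) * Fe Y φ F i f (SemidirectProduct.inl w)⁻¹ :=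
    Finsupp.sum_congr fun f _ => by rw [cch_κ Y cs φ hφ hpf hU hS hL F hF]
  refine h1.trans ?_
  rw [← Fe_dop_succ, h0]
  rfl

/-- the function of a family of cochains -/
def fch (c : ∀ i, U.E i → ℂ) (p : Ix Y × (W ⋊[φ] H)) : ℂ :=
  c p.1.1 (p.2⁻¹ • κ p.1.1 (Y.rep p.1.1 p.1.2) 1)

include hU hpf in
theorem stab_card (j : Ix Y) : ∃ m : ℕ, ∀ (s : Finset (W ⋊[φ] H)) (x : U.E j.1),
    (∀ g ∈ s, g⁻¹ • κ j.1 (Y.rep j.1 j.2) 1 = x) → s.card ≤ m := by
  classical
  have hfin := hpf j.1 (Y.rep j.1 j.2)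
  refine ⟨Nat.card (par cs (Y.mir j.1 (Y.rep j.1 j.2))), fun s x hs => ?_⟩
  rcases s.eq_empty_or_nonempty with rfl | ⟨g₀, hg₀⟩
  · simp
  have h1 : ∀ g ∈ s, ∃ u ∈ par cs (Y.mir j.1 (Y.rep j.1 j.2)),
      g = SemidirectProduct.inl u * g₀ := by
    intro g hg
    have h2 : (g * g₀⁻¹) • κ j.1 (Y.rep j.1 j.2) 1 = κ j.1 (Y.rep j.1 j.2) 1 := by
      rw [mul_smul, hs g₀ hg₀, ← hs g hg, smul_inv_smul]
    rw [κ_smul Y cs φ _ _ _ hU] at h2
    obtain ⟨h3, h4⟩ := (hU.inj _ _ _ _ _).1 h2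
    have h5 := Y.free _ _ _ h3
    rw [h3, mul_one] at h4
    refine ⟨(g * g₀⁻¹).left, by simpa using inv_mem h4, ?_⟩
    have h6 : (SemidirectProduct.inl (g * g₀⁻¹).left : W ⋊[φ] H) = g * g₀⁻¹ := by
      conv_rhs => rw [← SemidirectProduct.inl_left_mul_inr_right (g * g₀⁻¹)]
      rw [h5, map_one, mul_one]
    rw [h6, inv_mul_cancel_right]
  choose! u hu hg using h1
  have h7 : Set.InjOn u (s : Set (W ⋊[φ] H)) := by
    intro a ha b hb hab
    rw [hg a ha, hg b hb, hab]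
  have h8 : (s.image u).card = s.card := Finset.card_image_of_injOn h7
  rw [← h8, ← Set.ncard_coe_finset, ← Nat.card_coe_set_eq]
  refine Nat.card_mono ?_ ?_
  · exact Set.toFinite ((par cs (Y.mir j.1 (Y.rep j.1 j.2)) : Subgroup W) : Set W)
  · intro v hv
    rw [Finset.mem_coe, Finset.mem_image] at hv
    obtain ⟨g, hg', rfl⟩ := hv
    exact hu g hg'

include hU hpf in
theorem fch_mem (c : ∀ i, U.E i → ℂ) (hc : ∀ i, Memℓp (c i) 2) :
    Memℓp (fch Y φ (κ := κ) c) 2 := by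
  rw [memℓp_gen_iff (by norm_num)]
  rw [summable_prod_of_nonneg (fun x => by positivity)]
  refine ⟨fun j => ?_, Summable.of_finite⟩
  obtain ⟨m, hm⟩ := stab_card Y cs φ hpf hU j
  have h1 := hc j.1
  rw [memℓp_gen_iff (by norm_num)] at h1
  exact summable_comp (fun g : W ⋊[φ] H => g⁻¹ • κ j.1 (Y.rep j.1 j.2) 1) m
    (fun s b h => hm s b h) _ (fun b => by positivity) h1

/-- **The bridge**: exactness of the complex of square summable cochains gives exactness of the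
complex `M(1)`. -/
theorem exact_one (hex : L2Ex U.E (fun i => U.bd i)) :
    (CX Y cs φ hφ hpf hU hS hL).Exact (fun _ => 1) := by
  intro F hF h0
  change dop (DD Y φ) F = 0 at h0
  have hc0 : cch Y cs φ hU F 0 = 0 :=
    hex.1 _ (cch_mem Y cs φ hU F 0) fun e => cch_cob Y cs φ hφ hpf hU hS hL F hF h0 0 e
  have h1 : ∀ i, ∃ c' : U.E i → ℂ, Memℓp c' 2 ∧ ∀ e : U.E (i + 1), cch Y cs φ hU F (i + 1) e =
      (U.bd i (Finsupp.single e 1)).sum fun f n => ((n : ℤ) : ℂ) * c' f := fun i =>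
    hex.2 i _ (cch_mem Y cs φ hU F (i + 1)) fun e =>
      cch_cob Y cs φ hφ hpf hU hS hL F hF h0 (i + 1) e
  choose c' hc' hd using h1
  refine ⟨⟨fch Y φ (κ := κ) c', fch_mem Y cs φ hpf hU c' hc'⟩, ?_, ?_⟩
  · rintro j t ⟨b, hb, rfl⟩ g -
    rw [Real.sqrt_one]
    change fch Y φ (κ := κ) c' (j, _) = ((1 : ℝ) : ℂ) * fch Y φ (κ := κ) c' (j, g)
    unfold fch
    simp only [Complex.ofReal_one, one_mul]
    congr 1
    rw [mul_inv_rev, mul_smul]
    congr 1
    rw [inv_smul_eq_iff, κ_smul Y cs φ _ _ _ hU]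
    change _ = κ _ ((1 : H) • _) (cs.simple b)
    rw [one_smul]
    refine (hU.inj _ _ _ _ _).2 ⟨rfl, ?_⟩
    rw [inv_one, one_mul]
    exact Subgroup.subset_closure ⟨b, hb, rfl⟩
  · funext ⟨⟨⟨i, hi⟩, a⟩, g⟩
    change dop (DD Y φ) (fch Y φ (κ := κ) c') (⟨⟨i, hi⟩, a⟩, g) = _
    rw [← cch_rep Y cs φ hφ hpf hU hS hL F hF ⟨⟨i, hi⟩, a⟩ g]
    cases i with
    | zero =>
      rw [dop_zero Y φ _ _ rfl]
      change 0 = cch Y cs φ hU F 0 _
      rw [hc0]
      rfl
    | succ i =>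
      rw [dop_succ]
      change _ = cch Y cs φ hU F (i + 1) (g⁻¹ • κ (i + 1) (Y.rep (i + 1) a) 1)
      rw [hd]
      have h2 : U.bd i (Finsupp.single (g⁻¹ • κ (i + 1) (Y.rep (i + 1) a) 1) 1) =
          ((Y.bd i (Y.rep (i + 1) a)).mapDomain (fun f => κ i f 1)).mapDomain
            (fun e => g⁻¹ • e) := by
        rw [← hU.bd, ← U.bd_smul, Finsupp.mapDomain_single]
      rw [h2, Finsupp.sum_mapDomain_index (fun _ => by simp) (fun _ _ _ => by push_cast; ring),
        Finsupp.sum_mapDomain_index (fun _ => by simp) (fun _ _ _ => by push_cast; ring)]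
      refine Finsupp.sum_congr fun f _ => ?_
      congr 1
      unfold Fe fch
      simp only
      congr 1
      rw [mul_inv_rev, inv_inv, mul_smul]
      congr 1
      rw [hU.act, SemidirectProduct.right_inr, SemidirectProduct.left_inr, dec_spec, map_one,
        mul_one]

end

end Pool.Agent.V5helper85.ZD
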