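import Pool.Agent.Q169.ZD.Defs

/-!
# Weighted and relative Euler characteristics of a mirrored complex
-/

set_option autoImplicit false

namespace Pool.Agent.V5helper85.ZD

open Pool.Agent.Q169.ZD

noncomputable section

variable {B : Type} {M : CoxeterMatrix B} {W : Type} [Group W] (cs : CoxeterSystem M W)
  {H : Type} [Group H] [MulAction H B] (Y : Mirrored H B)

/-- The growth sum `W_T(p) = ∑_{u ∈ W_T} p(u)` of the subgroup `W_T` (which is finite in the
applications). -/
def growth (p : W → ℝ) (T : Set B) : ℝ := ∑ᶠ u : par cs T, p u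

/-- The weighted Euler characteristic `∑_e (-1)^(dim e) / W_(mir e)(p)`; the sum is over the
representatives of the `H`-orbits of the cells `e` of `Y`. -/
def weightedChi (p : W → ℝ) : ℝ :=
  ∑ i ∈ Finset.range (Y.len + 1), (-1 : ℝ) ^ i *
    ∑ a : Fin (Y.c i), 1 / growth cs p (Y.mir i (Y.rep i a))

open Classical in
/-- The relative Euler characteristic `χ(Y/H, Y^D/H)`, where `Y^D` is the union of the mirrors `Y_b`
with `b ∈ D`: the alternating sum of the numbers of the orbits of those `i`-cells which lie in no
mirror `Y_b` with `b ∈ D`. -/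
def relChi (D : Set B) : ℤ :=
  ∑ i ∈ Finset.range (Y.len + 1), (-1 : ℤ) ^ i *
    (Finset.univ.filter fun a : Fin (Y.c i) => Disjoint (Y.mir i (Y.rep i a)) D).card

end

end Pool.Agent.V5helper85.ZD
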