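import Pool.Agent.V5helper85.ZD.Defs

/-!
# Euler characteristics of the intersections of unions of mirrors
-/

set_option autoImplicit false

namespace Pool.Agent.V5helper85.ZD

open Pool.Agent.Q169.ZD

noncomputable section

variable {B : Type} {M : CoxeterMatrix B} {W : Type} [Group W] (cs : CoxeterSystem M W)
  {H : Type} [Group H] [MulAction H B] (φ : H →* MulAut W) (Y : Mirrored H B)

/-- No simple reflection with index in `D` is conjugate in `W ⋊ H` to one with index not in `D`. So `D`
is an arbitrary `H`-invariant subset if `W` is right-angled; for all `W` one can take `D = B`. -/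
def ClassClosed (D : Set B) : Prop :=
  ∀ b ∈ D, ∀ b' ∉ D, ¬ IsConj (SemidirectProduct.inl (cs.simple b) : W ⋊[φ] H)
    (SemidirectProduct.inl (cs.simple b'))

open Classical in
/-- The Euler characteristic of `K_(O 1) ∩ … ∩ K_(O n)`, where `K = Y/H` and `K_D` is the image of
the union of the mirrors `Y_b`, `b ∈ D`, for `H`-invariant sets `D`; it is the alternating sum of the
numbers of the `H`-orbits of those `i`-cells of `Y` which lie, for every `k`, in a mirror `Y_b` with
`b ∈ O k`. For `n = 0` it is the Euler characteristic of `K`. -/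
def mirrorChi {n : ℕ} (O : Fin n → Set B) : ℤ :=
  ∑ i ∈ Finset.range (Y.len + 1), (-1 : ℤ) ^ i *
    (Finset.univ.filter fun a : Fin (Y.c i) =>
      ∀ k, (Y.mir i (Y.rep i a) ∩ O k).Nonempty).card

end

end Pool.Agent.V5helper85.ZD
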