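import Pool.Agent.Q169.ZD.Stm

/-!
# Project ZD: assembly of the engine

If the complex `M(1)` is exact, then the Euler characteristic `∑_j (-1)^(deg j) / W_(T j)(p)` vanishes
for every weight function `p`.
-/

set_option autoImplicit false

open scoped InnerProductSpace

namespace Pool.Agent.V5helper85.ZD

open Pool.Agent.Q169.ZD
open Pool.Agent.H496R3.ZS (Ell permIso dl dl_apply inner_dl_left)

noncomputable section

open scoped Classical

variable {G : Type} [Group G] {E : Ext G} {I : Type} [Fintype I]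

theorem wt_one : Wt E (fun _ => 1) where
  pos _ := one_pos
  one := rfl
  zero_mul _ _ _ := rfl
  mul_zero _ _ _ := rfl
  mul _ _ _ _ := (mul_one _).symm
  smul _ _ _ _ := (mul_one _).symm

/-- the trace as a linear functional -/
def TrL : (Ell (I × G) →L[ℂ] Ell (I × G)) →ₗ[ℂ] ℂ where
  toFun := Tr
  map_add' x y := by
    unfold Tr
    rw [← Finset.sum_add_distrib]
    rfl
  map_smul' c x := by
    unfold Tr
    rw [RingHom.id_apply, smul_eq_mul, Finset.mul_sum]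
    rfl

theorem norm_coord (F : Ell (I × G)) (p : I × G) : ‖(F : I × G → ℂ) p‖ ≤ ‖F‖ :=
  lp.norm_apply_le_norm (by norm_num) F p

theorem norm_dl (p : I × G) : ‖(dl p : Ell (I × G))‖ = 1 := by
  have h1 : ⟪(dl p : Ell (I × G)), dl p⟫_ℂ = 1 := by
    rw [inner_dl, dl_apply]
    simp
  have h2 := inner_self_eq_norm_sq_to_K (𝕜 := ℂ) (dl p : Ell (I × G))
  rw [h1] at h2
  have h3 : (‖(dl p : Ell (I × G))‖ ^ 2 : ℝ) = 1 := by
    have h4 : ((‖(dl p : Ell (I × G))‖ ^ 2 : ℝ) : ℂ) = ((1 : ℝ) : ℂ) := by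
      push_cast
      exact h2.symm
    exact_mod_cast h4
  nlinarith [norm_nonneg (dl p : Ell (I × G)), sq_nonneg (‖(dl p : Ell (I × G))‖ - 1)]

theorem norm_Tr (x : Ell (I × G) →L[ℂ] Ell (I × G)) : ‖Tr x‖ ≤ (Fintype.card I : ℝ) * ‖x‖ := by
  unfold Tr
  refine (norm_sum_le _ _).trans ?_
  have h : ∀ j ∈ (Finset.univ : Finset I), ‖(x (dl (j, 1)) : I × G → ℂ) (j, 1)‖ ≤ ‖x‖ := by
    intro j _
    refine (norm_coord _ _).trans ?_
    have := x.le_opNorm (dl (j, 1))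
    rwa [norm_dl, mul_one] at this
  refine (Finset.sum_le_sum h).trans ?_
  rw [Finset.sum_const, Finset.card_univ, nsmul_eq_mul]

theorem fs_comp {x y : Ell (I × G) →L[ℂ] Ell (I × G)} (hx : FS x) (hy : FS y) : FS (x ∘L y) :=
  fun F hF => hx _ (hy F hF)

theorem fs_add {x y : Ell (I × G) →L[ℂ] Ell (I × G)} (hx : FS x) (hy : FS y) : FS (x + y) := by
  intro F hF
  refine ((hx F hF).union (hy F hF)).subset fun p hp => ?_
  by_contra hn
  simp only [Set.mem_union, Function.mem_support, not_or, not_not] at hn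
  apply hp
  have : (x + y) F p = x F p + y F p := rfl
  exact this.trans (by rw [hn.1, hn.2, add_zero])

theorem fs_smul {x : Ell (I × G) →L[ℂ] Ell (I × G)} (a : ℂ) (hx : FS x) : FS (a • x) := by
  intro F hF
  refine (hx F hF).subset fun p hp => ?_
  by_contra hn
  simp only [Function.mem_support, not_not] at hn
  apply hp
  have : (a • x) F p = a * x F p := rfl
  exact this.trans (by rw [hn, mul_zero])

variable {q : G → ℝ}

theorem cm_comp {x y : Ell (I × G) →L[ℂ] Ell (I × G)} (hx : Comm E I q x) (hy : Comm E I q y) :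
    Comm E I q (x ∘L y) := by
  refine ⟨fun s hs => ?_, fun h hh => ?_⟩
  · rw [ContinuousLinearMap.comp_assoc, hy.1 s hs, ← ContinuousLinearMap.comp_assoc, hx.1 s hs,
      ContinuousLinearMap.comp_assoc]
  · rw [ContinuousLinearMap.comp_assoc, hy.2 h hh, ← ContinuousLinearMap.comp_assoc, hx.2 h hh,
      ContinuousLinearMap.comp_assoc]

theorem cm_add {x y : Ell (I × G) →L[ℂ] Ell (I × G)} (hx : Comm E I q x) (hy : Comm E I q y) :
    Comm E I q (x + y) := by
  refine ⟨fun s hs => ?_, fun h hh => ?_⟩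
  · rw [ContinuousLinearMap.add_comp, ContinuousLinearMap.comp_add, hx.1 s hs, hy.1 s hs]
  · rw [ContinuousLinearMap.add_comp, ContinuousLinearMap.comp_add, hx.2 h hh, hy.2 h hh]

theorem cm_smul {x : Ell (I × G) →L[ℂ] Ell (I × G)} (a : ℂ) (hx : Comm E I q x) :
    Comm E I q (a • x) := by
  refine ⟨fun s hs => ?_, fun h hh => ?_⟩
  · rw [ContinuousLinearMap.smul_comp, ContinuousLinearMap.comp_smul, hx.1 s hs]
  · rw [ContinuousLinearMap.smul_comp, ContinuousLinearMap.comp_smul, hx.2 h hh]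

/-- **JOB ENG.** -/
theorem eng (E : Ext G) (C : Cx E I) (hP : S_PROJ G E I C) (hCt : S_CONT G E I C)
    (hCm : S_COMM G E I C) (hT : S_TRACE G E I) (hG : S_GAP (Ell (I × G)))
    (hS : S_SMALL (Ell (I × G))) (hSu : S_SUPER (Ell (I × G))) (hA : S_ANA) (hD : S_DPROP G E I C)
    (hex : C.Exact (fun _ => 1)) (p : G → ℝ) (hp : Wt E p) :
    ∑ j, (-1 : ℝ) ^ C.deg j / C.wt p j = 0 := by
  obtain ⟨hw, hcont⟩ := hCt (fun _ => 1) p wt_one hp
  obtain ⟨hd0, hdM, hdd, hfD, hfDs, hfe, heD, heDs⟩ := hD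
  set Q : ℝ → G → ℝ := fun t g => (fun _ => (1 : ℝ)) g * p g ^ t with hQ
  set P : ℝ → Ell (I × G) →L[ℂ] Ell (I × G) := fun t => C.P (Q t) with hPdef
  -- algebraic properties
  have idem : ∀ t, P t ∘L P t = P t := fun t => by
    refine ContinuousLinearMap.ext fun F => ?_
    exact (hP (Q t) (hw t)).2.1 _ ((hP (Q t) (hw t)).1 F)
  have sa : ∀ t, ContinuousLinearMap.adjoint (P t) = P t := fun t => (hP (Q t) (hw t)).2.2.1
  have hPDP : ∀ t, P t ∘L C.Dh ∘L P t = C.Dh ∘L P t := fun t => by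
    refine ContinuousLinearMap.ext fun F => ?_
    exact (hP (Q t) (hw t)).2.1 _ (hdM (Q t) (hw t) _ ((hP (Q t) (hw t)).1 F))
  have hDDP : ∀ t, C.Dh ∘L C.Dh ∘L P t = 0 := fun t => by
    rw [← ContinuousLinearMap.comp_assoc, hdd, ContinuousLinearMap.zero_comp]
  have hss : C.Ds ∘L C.Ds = 0 := by
    unfold Cx.Ds
    rw [← ContinuousLinearMap.adjoint_comp, hdd, map_zero]
  have hPSP : ∀ t, P t ∘L C.Ds ∘L P t = P t ∘L C.Ds := fun t => by
    have h := congrArg ContinuousLinearMap.adjoint (hPDP t)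
    rw [ContinuousLinearMap.adjoint_comp, ContinuousLinearMap.adjoint_comp, sa t,
      ContinuousLinearMap.comp_assoc] at h
    exact h
  have hPSS : ∀ t, P t ∘L C.Ds ∘L C.Ds = 0 := fun t => by
    rw [hss, ContinuousLinearMap.comp_zero]
  have heP : ∀ t, C.eps ∘L P t = P t ∘L C.eps := fun t => by
    have h1 := (hP (Q t) (hw t)).2.2.2.2.2 {j | Even (C.deg j)}
    have h2 := (hP (Q t) (hw t)).2.2.2.2.2 {j | ¬ Even (C.deg j)}
    unfold Cx.eps
    rw [ContinuousLinearMap.sub_comp, ContinuousLinearMap.comp_sub]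
    exact congrArg₂ (· - ·) h1.symm h2.symm
  -- the gap at t = 0
  have hQ0 : Q 0 = fun _ => 1 := by
    funext g
    simp [hQ]
  obtain ⟨K, hK, hgap⟩ := hG (P 0) C.Dh (idem 0) (sa 0) (hPDP 0) (hDDP 0) (by
    intro x hx hdx
    have hxM : InM C (fun _ => 1) x := by
      rw [← hQ0, ← hx]
      exact (hP (Q 0) (hw 0)).1 x
    obtain ⟨y, hy, hxy⟩ := hex x hxM (by
      funext r
      rw [← hd0, hdx]
      rfl)
    refine ⟨y, (hP (Q 0) (hw 0)).2.1 y (by rw [hQ0]; exact hy), ?_⟩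
    refine ell_ext fun r => ?_
    rw [hd0, hxy])
  obtain ⟨c, -, hc⟩ := hS (P 0) C.Dh (idem 0) (sa 0) (hPDP 0) K hK hgap
  have hcontA : Continuous fun t => ‖P t - (c : ℂ) • (P t ∘L C.Ds ∘L C.Dh ∘L P t +
      C.Dh ∘L P t ∘L C.Ds)‖ := by
    have hcP : Continuous P := hcont
    fun_prop
  obtain ⟨η, hη, hlt⟩ : ∃ η > 0, ∀ t : ℝ, |t| < η → ‖P t - (c : ℂ) •
      (P t ∘L C.Ds ∘L C.Dh ∘L P t + C.Dh ∘L P t ∘L C.Ds)‖ < 1 := by
    have h1 := (hcontA.tendsto 0).eventually (gt_mem_nhds hc)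
    obtain ⟨η, hη, h2⟩ := Metric.eventually_nhds_iff.1 h1
    exact ⟨η, hη, fun t ht => h2 (by rwa [dist_zero_right, Real.norm_eq_abs])⟩
  -- the Euler characteristic for small t
  have key : ∀ t : ℝ, |t| < η → ∑ j, (-1 : ℝ) ^ C.deg j / ∑ u ∈ C.U j, (1 : ℝ) * p u ^ t = 0 := by
    intro t ht
    obtain ⟨cP, cD, cDs, cm⟩ := hCm (Q t) (hw t)
    have hce : Comm E I (Q t) C.eps := by
      have h1 := cm {j | Even (C.deg j)}
      have h2 := cm {j | ¬ Even (C.deg j)}
      have h3 := cm_add h1 (cm_smul (-1) h2)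
      rw [neg_one_smul, ← sub_eq_add_neg] at h3
      exact h3
    have h0 := hSu {x | Comm E I (Q t) x ∧ FS x} TrL (Fintype.card I)
      (fun x hx y hy => ⟨cm_add hx.1 hy.1, fs_add hx.2 hy.2⟩)
      (fun x hx y hy => ⟨cm_comp hx.1 hy.1, fs_comp hx.2 hy.2⟩)
      (fun a x hx => ⟨cm_smul a hx.1, fs_smul a hx.2⟩)
      (fun x hx y hy => hT (Q t) (hw t) x y hx.1 hy.1 hx.2 hy.2)
      (fun x => norm_Tr x) (P t) C.Dh C.Ds C.eps
      ⟨cP, (hP (Q t) (hw t)).2.2.2.2.1⟩ ⟨cD, hfD⟩ ⟨cDs, hfDs⟩ ⟨hce, hfe⟩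
      (idem t) (hPDP t) (hPSP t) (hDDP t) (hPSS t) (heP t) heD heDs (c : ℂ) (hlt t ht)
    have h1 : TrL (C.eps ∘L P t) = ((∑ j, (-1 : ℝ) ^ C.deg j / C.wt (Q t) j : ℝ) : ℂ) := by
      change Tr (C.eps ∘L P t) = _
      unfold Tr
      push_cast
      refine Finset.sum_congr rfl fun j _ => ?_
      have h2 : ((C.eps ∘L P t) (dl (j, 1)) : I × G → ℂ) (j, 1) =
          (msk {p : I × G | Even (C.deg p.1)} (P t (dl (j, 1))) : I × G → ℂ) (j, 1) -
          (msk {p : I × G | ¬ Even (C.deg p.1)} (P t (dl (j, 1))) : I × G → ℂ) (j, 1) := rfl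
      have h3 := (hP (Q t) (hw t)).2.2.2.1 j
      refine h2.trans ?_
      rw [msk_apply, msk_apply]
      rcases Nat.even_or_odd (C.deg j) with he | ho
      · rw [if_pos (show (j, (1 : G)) ∈ {p : I × G | Even (C.deg p.1)} from he),
          if_neg (show ¬ (j, (1 : G)) ∈ {p : I × G | ¬ Even (C.deg p.1)} from not_not.2 he),
          he.neg_one_pow, sub_zero]
        refine h3.trans ?_
        push_cast
        rfl
      · rw [if_neg (show ¬ (j, (1 : G)) ∈ {p : I × G | Even (C.deg p.1)} from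
            Nat.not_even_iff_odd.2 ho),
          if_pos (show (j, (1 : G)) ∈ {p : I × G | ¬ Even (C.deg p.1)} from
            Nat.not_even_iff_odd.2 ho), ho.neg_one_pow, zero_sub]
        refine (congrArg (fun z : ℂ => -z) h3).trans ?_
        push_cast
        ring
    rw [h0] at h1
    exact_mod_cast h1.symm
  have hfin := hA I G C.U (fun _ => 1) p (fun j => (-1 : ℝ) ^ C.deg j) (fun _ => one_pos) hp.pos
    (fun j => ⟨1, (C.mem_U j 1).2 (one_mem _)⟩) ⟨η, hη, key⟩ 1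
  simpa [Cx.wt, Real.rpow_one] using hfin

end

end Pool.Agent.V5helper85.ZD
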