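import Pool.Agent.Q169.ZD.Defs
import Pool.Agent.Helper741.Exchange

/-!
# Project ZD: weight functions with prescribed values
-/

set_option autoImplicit false

namespace Pool.Agent.V5helper85.ZD

open Pool.Agent.Q169.ZD (IsWeight)
open Pool.Agent.Helper741 (invc invc_w invc_simple mem_leftInvSeq_of_invc TExt TExt.mul_v TExt.el_v
  TExt.el_w TExt.act_apply)

variable {B : Type} {M : CoxeterMatrix B} {W : Type} [Group W] (cs : CoxeterSystem M W)

open Classical in
/-- the set of the left inversions of `w` -/
noncomputable def inv' (w : W) : Finset W := (invc cs w).v.support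

theorem mem_inv' (w t : W) : t ∈ inv' cs w ↔ (invc cs w).v t ≠ 0 := Finsupp.mem_support_iff

theorem length_lt_of_mem {w t : W} (h : t ∈ inv' cs w) : cs.length (t * w) < cs.length w := by
  obtain ⟨ω, hω, rfl⟩ := cs.exists_isReduced w
  rw [mem_inv'] at h
  exact (cs.isLeftInversion_of_mem_leftInvSeq hω (mem_leftInvSeq_of_invc cs ω t h)).2

theorem zmod2 (a : ZMod 2) : a = 0 ∨ a = 1 := by revert a; decide

open Classical in
theorem inv'_simple_mul {w : W} {b : B} (h : cs.length w < cs.length (cs.simple b * w)) :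
    inv' cs (cs.simple b * w) =
      insert (cs.simple b) ((inv' cs w).image fun t => cs.simple b * t * (cs.simple b)⁻¹) ∧
    cs.simple b ∉ (inv' cs w).image fun t => cs.simple b * t * (cs.simple b)⁻¹ := by
  have h0 : (invc cs w).v (cs.simple b) = 0 := by
    by_contra hn
    have := length_lt_of_mem cs ((mem_inv' cs w _).2 hn)
    omega
  have hn : cs.simple b ∉ (inv' cs w).image fun t => cs.simple b * t * (cs.simple b)⁻¹ := by
    rw [Finset.mem_image]
    rintro ⟨t, ht, he⟩
    have h1 : t = cs.simple b := by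
      have h2 : t = (cs.simple b)⁻¹ * (cs.simple b * t * (cs.simple b)⁻¹) * cs.simple b := by group
      rw [h2, he]
      group
    rw [h1, mem_inv'] at ht
    exact ht h0
  refine ⟨?_, hn⟩
  ext t
  rw [mem_inv', map_mul, TExt.mul_v, Finsupp.add_apply, invc_simple, TExt.el_v, TExt.el_w,
    TExt.act_apply, Finset.mem_insert, Finset.mem_image, Finsupp.single_apply]
  by_cases h1 : cs.simple b = t
  · rw [if_pos h1]
    subst h1
    have h2 : (cs.simple b)⁻¹ * cs.simple b * cs.simple b = cs.simple b := by group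
    rw [h2, h0, add_zero]
    exact ⟨fun _ => Or.inl rfl, fun _ => one_ne_zero⟩
  · rw [if_neg h1, zero_add]
    constructor
    · intro h3
      exact Or.inr ⟨_, (mem_inv' cs w _).2 h3, by group⟩
    · rintro (h3 | ⟨u, hu, rfl⟩)
      · exact absurd h3.symm h1
      · rw [mem_inv'] at hu
        have h4 : (cs.simple b)⁻¹ * (cs.simple b * u * (cs.simple b)⁻¹) * cs.simple b = u := by group
        rwa [h4]

open Classical in
theorem inv'_mul_simple {w : W} {b : B} (h : cs.length w < cs.length (w * cs.simple b)) :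
    inv' cs (w * cs.simple b) = insert (w * cs.simple b * w⁻¹) (inv' cs w) ∧
    w * cs.simple b * w⁻¹ ∉ inv' cs w := by
  have hn : w * cs.simple b * w⁻¹ ∉ inv' cs w := by
    intro hm
    have := length_lt_of_mem cs hm
    rw [inv_mul_cancel_right] at this
    omega
  refine ⟨?_, hn⟩
  ext t
  rw [mem_inv', map_mul, TExt.mul_v, Finsupp.add_apply, invc_simple, TExt.el_v, invc_w,
    TExt.act_apply, Finset.mem_insert, Finsupp.single_apply]
  by_cases h1 : cs.simple b = w⁻¹ * t * w
  · have h2 : t = w * cs.simple b * w⁻¹ := by rw [h1]; group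
    rw [if_pos h1]
    have h0 : (invc cs w).v t = 0 := by
      by_contra hne
      exact hn (h2 ▸ (mem_inv' cs w t).2 hne)
    rw [h0, zero_add]
    exact ⟨fun _ => Or.inl h2, fun _ => one_ne_zero⟩
  · have h2 : t ≠ w * cs.simple b * w⁻¹ := by
      rintro rfl
      apply h1
      group
    rw [if_neg h1, add_zero, mem_inv']
    simp [h2]

/-- the weight function of a class function -/
noncomputable def wtf (r : W → ℝ) (w : W) : ℝ := ∏ t ∈ inv' cs w, r t

theorem inv'_one : inv' cs 1 = ∅ := by
  unfold inv'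
  rw [map_one]
  simp

theorem wtf_one (r : W → ℝ) : wtf cs r 1 = 1 := by
  unfold wtf
  rw [inv'_one, Finset.prod_empty]

theorem wtf_simple_mul {r : W → ℝ} (hr : ∀ w t, r (w * t * w⁻¹) = r t) {w : W} {b : B}
    (h : cs.length w < cs.length (cs.simple b * w)) :
    wtf cs r (cs.simple b * w) = r (cs.simple b) * wtf cs r w := by
  classical
  obtain ⟨h1, h2⟩ := inv'_simple_mul cs h
  unfold wtf
  rw [h1, Finset.prod_insert h2, Finset.prod_image]
  · congr 1
    exact Finset.prod_congr rfl fun t _ => hr _ t
  · intro x _ y _ hxy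
    simpa using hxy

theorem wtf_mul_simple {r : W → ℝ} (hr : ∀ w t, r (w * t * w⁻¹) = r t) {w : W} {b : B}
    (h : cs.length w < cs.length (w * cs.simple b)) :
    wtf cs r (w * cs.simple b) = wtf cs r w * r (cs.simple b) := by
  classical
  obtain ⟨h1, h2⟩ := inv'_mul_simple cs h
  unfold wtf
  rw [h1, Finset.prod_insert h2, hr, mul_comm]

theorem length_simple_pos (b : B) : cs.length (1 : W) < cs.length (cs.simple b * 1) := by
  rw [mul_one, cs.length_one, cs.length_simple]
  exact one_pos

theorem wtf_simple {r : W → ℝ} (hr : ∀ w t, r (w * t * w⁻¹) = r t) (b : B) :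
    wtf cs r (cs.simple b) = r (cs.simple b) := by
  have h := wtf_simple_mul cs hr (length_simple_pos cs b)
  rwa [wtf_one, mul_one, mul_one] at h

theorem wtf_isWeight {r : W → ℝ} (hr : ∀ w t, r (w * t * w⁻¹) = r t) (hpos : ∀ t, 0 < r t) :
    IsWeight cs (wtf cs r) where
  one := wtf_one cs r
  pos w := Finset.prod_pos fun t _ => hpos t
  simple_mul w b h := by rw [wtf_simple_mul cs hr h, wtf_simple cs hr]
  mul_simple w b h := by rw [wtf_mul_simple cs hr h, wtf_simple cs hr]

/-- weight functions are determined by their values on the simple reflections -/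
theorem weight_unique {p q : W → ℝ} (hp : IsWeight cs p) (hq : IsWeight cs q)
    (h : ∀ b, p (cs.simple b) = q (cs.simple b)) (w : W) : p w = q w := by
  obtain ⟨ω, hω, rfl⟩ := cs.exists_isReduced w
  induction ω with
  | nil => rw [cs.wordProd_nil, hp.one, hq.one]
  | cons b ω ih =>
    have h1 : cs.IsReduced ω := by
      have := hω.drop 1
      simpa using this
    have h2 : cs.length (cs.wordProd ω) < cs.length (cs.simple b * cs.wordProd ω) := by
      rw [← cs.wordProd_cons, hω.eq, h1.eq, List.length_cons]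
      exact Nat.lt_succ_self _
    rw [cs.wordProd_cons, hp.simple_mul _ _ h2, hq.simple_mul _ _ h2, h, ih h1]

/-- invariance under diagram automorphisms -/
theorem weight_inv {p : W → ℝ} (hp : IsWeight cs p) (φ : MulAut W) (σ : Equiv.Perm B)
    (hφ : ∀ b, φ (cs.simple b) = cs.simple (σ b))
    (hσ : ∀ b, p (cs.simple (σ b)) = p (cs.simple b)) (w : W) : p (φ w) = p w := by
  have hle : ∀ (ψ : MulAut W) (τ : Equiv.Perm B), (∀ b, ψ (cs.simple b) = cs.simple (τ b)) →
      ∀ w, cs.length (ψ w) ≤ cs.length w := by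
    intro ψ τ h w
    obtain ⟨ω, hω, rfl⟩ := cs.exists_isReduced w
    have h1 : ∀ ω : List B, ψ (cs.wordProd ω) = cs.wordProd (ω.map τ) := by
      intro ω
      induction ω with
      | nil => simp
      | cons b ω ih => rw [cs.wordProd_cons, map_mul, h, ih, List.map_cons, cs.wordProd_cons]
    rw [h1, hω.eq]
    refine (cs.length_wordProd_le _).trans ?_
    rw [List.length_map]
  have hφ' : ∀ b, φ⁻¹ (cs.simple b) = cs.simple (σ⁻¹ b) := by
    intro b
    have h1 := hφ (σ⁻¹ b)
    have h2 : σ (σ⁻¹ b) = b := σ.apply_symm_apply b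
    rw [h2] at h1
    rw [← h1]
    exact φ.symm_apply_apply _
  have hlen : ∀ w, cs.length (φ w) = cs.length w := by
    intro w
    apply le_antisymm (hle φ σ hφ w)
    have h1 := hle φ⁻¹ σ⁻¹ hφ' (φ w)
    have h2 : φ⁻¹ (φ w) = w := φ.symm_apply_apply w
    rwa [h2] at h1
  have hw : IsWeight cs fun w => p (φ w) := by
    refine ⟨by rw [map_one, hp.one], fun w => hp.pos _, fun w b h => ?_, fun w b h => ?_⟩
    · rw [map_mul, hφ]
      refine hp.simple_mul _ _ ?_
      rw [← hφ, ← map_mul, hlen, hlen]
      exact h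
    · rw [map_mul, hφ]
      refine hp.mul_simple _ _ ?_
      rw [← hφ, ← map_mul, hlen, hlen]
      exact h
  exact weight_unique cs hw hp (fun b => by rw [hφ, hσ]) w

end Pool.Agent.V5helper85.ZD
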