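import Pool.Agent.V5helper85.ZD.Defs
import Pool.Agent.V5helper85.ZD.Wtf
import Pool.Agent.Q27.Cox.Par

/-!
# Project ZD: from weighted Euler characteristics to relative Euler characteristics
-/

set_option autoImplicit false
set_option linter.unusedSectionVars false

open scoped Topology

namespace Pool.Agent.V5helper85.ZD

open Pool.Agent.Q169.ZD

noncomputable section

variable {B : Type} {M : CoxeterMatrix B} {W : Type} [Group W] (cs : CoxeterSystem M W)

theorem weight_word {p : W → ℝ} (hp : IsWeight cs p) (ω : List B) (hω : cs.IsReduced ω) :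
    p (cs.wordProd ω) = (ω.map fun b => p (cs.simple b)).prod := by
  induction ω with
  | nil => rw [cs.wordProd_nil, hp.one]; rfl
  | cons b ω ih =>
    have h1 : cs.IsReduced ω := by
      have := hω.drop 1
      simpa using this
    have h2 : cs.length (cs.wordProd ω) < cs.length (cs.simple b * cs.wordProd ω) := by
      rw [← cs.wordProd_cons, hω.eq, h1.eq, List.length_cons]
      exact Nat.lt_succ_self _
    rw [cs.wordProd_cons, hp.simple_mul _ _ h2, ih h1, List.map_cons, List.prod_cons]

theorem weight_par {p : W → ℝ} (hp : IsWeight cs p) {T : Set B} {ε : ℝ}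
    (h : ∀ b ∈ T, p (cs.simple b) = ε) {u : W} (hu : u ∈ par cs T) : p u = ε ^ cs.length u := by
  obtain ⟨ω, h1, h2, h3⟩ := Q27.Cox.exists_reduced_word (cs := cs) (J := T) hu
  have h4 : ∀ l : List B, (∀ i ∈ l, i ∈ T) → (l.map fun b => p (cs.simple b)).prod =
      ε ^ l.length := by
    intro l
    induction l with
    | nil => simp
    | cons b l ih =>
      intro hl
      rw [List.map_cons, List.prod_cons, List.length_cons, pow_succ',
        ih fun i hi => hl i (List.mem_cons_of_mem _ hi), h b (hl b List.mem_cons_self)]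
  rw [← h3, weight_word cs hp ω h1, h4 ω h2, ← h1.eq]

variable {H : Type} [Group H] [MulAction H B] (Y : Mirrored H B) (φ : H →* MulAut W)

open Classical in
/-- the class function of a set of classes of reflections -/
def rr (D : Set B) (ε : ℝ) (t : W) : ℝ :=
  if ∃ b ∈ D, IsConj (SemidirectProduct.inl (cs.simple b) : W ⋊[φ] H) (SemidirectProduct.inl t)
    then ε⁻¹ else ε

theorem rr_conj (D : Set B) (ε : ℝ) (w t : W) : rr cs φ D ε (w * t * w⁻¹) = rr cs φ D ε t := by
  unfold rr
  have h : IsConj (SemidirectProduct.inl t : W ⋊[φ] H)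
      (SemidirectProduct.inl (w * t * w⁻¹)) := by
    rw [isConj_iff]
    exact ⟨SemidirectProduct.inl w, by simp⟩
  congr 1
  apply propext
  exact ⟨fun ⟨b, hb, hc⟩ => ⟨b, hb, hc.trans h.symm⟩, fun ⟨b, hb, hc⟩ => ⟨b, hb, hc.trans h⟩⟩

theorem rr_phi (D : Set B) (ε : ℝ) (h : H) (t : W) : rr cs φ D ε (φ h t) = rr cs φ D ε t := by
  unfold rr
  have h : IsConj (SemidirectProduct.inl t : W ⋊[φ] H)
      (SemidirectProduct.inl (φ h t)) := by
    rw [isConj_iff]
    exact ⟨SemidirectProduct.inr h, (SemidirectProduct.inl_aut h t).symm ▸ by simp⟩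
  congr 1
  apply propext
  exact ⟨fun ⟨b, hb, hc⟩ => ⟨b, hb, hc.trans h.symm⟩, fun ⟨b, hb, hc⟩ => ⟨b, hb, hc.trans h⟩⟩

theorem rr_pos (D : Set B) {ε : ℝ} (hε : 0 < ε) (t : W) : 0 < rr cs φ D ε t := by
  unfold rr
  split_ifs
  · exact inv_pos.2 hε
  · exact hε

theorem growth_eq {T : Set B} [Fintype (par cs T)] (p : W → ℝ) :
    growth cs p T = ∑ u : par cs T, p u := finsum_eq_sum_of_fintype _

/-- If all weighted Euler characteristics vanish, then so do the relative ones. -/
theorem relChi_eq_zero (hφ : ∀ h b, φ h (cs.simple b) = cs.simple (h • b))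
    (hpf : ∀ i e, Finite (par cs (Y.mir i e)))
    (h0 : ∀ p : W → ℝ, IsWeight cs p → (∀ h w, p (φ h w) = p w) → weightedChi cs Y p = 0)
    (D : Set B) (hD : ∀ b ∈ D, ∀ b' ∉ D,
      ¬ IsConj (SemidirectProduct.inl (cs.simple b) : W ⋊[φ] H)
        (SemidirectProduct.inl (cs.simple b'))) : relChi Y D = 0 := by
  classical
  have hw : ∀ ε : ℝ, 0 < ε → IsWeight cs (wtf cs (rr cs φ D ε)) := fun ε hε =>
    wtf_isWeight cs (rr_conj cs φ D ε) (rr_pos cs φ D hε)
  have hval : ∀ ε : ℝ, ∀ b, wtf cs (rr cs φ D ε) (cs.simple b) = if b ∈ D then ε⁻¹ else ε := by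
    intro ε b
    rw [wtf_simple cs (rr_conj cs φ D ε)]
    unfold rr
    congr 1
    apply propext
    constructor
    · rintro ⟨b', hb', hc⟩
      by_contra hb
      exact hD b' hb' b hb hc
    · intro hb
      exact ⟨b, hb, IsConj.refl _⟩
  have hzero : ∀ ε : ℝ, 0 < ε → weightedChi cs Y (wtf cs (rr cs φ D ε)) = 0 := by
    intro ε hε
    refine h0 _ (hw ε hε) fun h w => ?_
    refine weight_inv cs (hw ε hε) (φ h) (MulAction.toPerm h) (fun b => hφ h b) (fun b => ?_) w
    change wtf cs (rr cs φ D ε) (cs.simple (h • b)) = _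
    rw [← hφ, hφ, wtf_simple cs (rr_conj cs φ D ε), wtf_simple cs (rr_conj cs φ D ε), ← hφ,
      rr_phi]
  have hlim : ∀ i (e : Y.E i), Filter.Tendsto
      (fun ε : ℝ => 1 / growth cs (wtf cs (rr cs φ D ε)) (Y.mir i e)) (𝓝[>] 0)
      (𝓝 (if Disjoint (Y.mir i e) D then 1 else 0)) := by
    intro i e
    have := hpf i e
    have := Fintype.ofFinite (par cs (Y.mir i e))
    by_cases hd : Disjoint (Y.mir i e) D
    · rw [if_pos hd]
      have h1 : ∀ ε : ℝ, 0 < ε → growth cs (wtf cs (rr cs φ D ε)) (Y.mir i e) =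
          ∑ u : par cs (Y.mir i e), ε ^ cs.length (u : W) := by
        intro ε hε
        rw [growth_eq]
        refine Finset.sum_congr rfl fun u _ => ?_
        refine weight_par cs (hw ε hε) (T := Y.mir i e) (fun b hb => ?_) u.2
        rw [hval, if_neg fun hb' => Set.disjoint_left.1 hd hb hb']
      have h2 : Filter.Tendsto (fun ε : ℝ => 1 / ∑ u : par cs (Y.mir i e), ε ^ cs.length (u : W))
          (𝓝 0) (𝓝 (1 / ∑ u : par cs (Y.mir i e), (0 : ℝ) ^ cs.length (u : W))) := by
        have hs : ∑ u : par cs (Y.mir i e), (0 : ℝ) ^ cs.length (u : W) = 1 := by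
          rw [Finset.sum_eq_single (1 : par cs (Y.mir i e))]
          · simp
          · intro u _ hu
            refine zero_pow fun hl => hu ?_
            rw [cs.length_eq_zero_iff] at hl
            exact Subtype.ext hl
          · intro hn
            exact absurd (Finset.mem_univ _) hn
        refine Filter.Tendsto.div tendsto_const_nhds ?_ (by rw [hs]; exact one_ne_zero)
        exact tendsto_finsetSum _ fun u _ => (continuous_pow _).tendsto 0
      have hs : ∑ u : par cs (Y.mir i e), (0 : ℝ) ^ cs.length (u : W) = 1 := by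
        rw [Finset.sum_eq_single (1 : par cs (Y.mir i e))]
        · simp
        · intro u _ hu
          refine zero_pow fun hl => hu ?_
          rw [cs.length_eq_zero_iff] at hl
          exact Subtype.ext hl
        · intro hn
          exact absurd (Finset.mem_univ _) hn
      rw [hs, div_one] at h2
      refine (h2.mono_left nhdsWithin_le_nhds).congr' ?_
      filter_upwards [self_mem_nhdsWithin] with ε hε
      rw [h1 ε hε]
    · rw [if_neg hd]
      obtain ⟨b, hb, hbD⟩ := Set.not_disjoint_iff.1 hd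
      have h1 : ∀ ε : ℝ, 0 < ε → ε⁻¹ ≤ growth cs (wtf cs (rr cs φ D ε)) (Y.mir i e) := by
        intro ε hε
        rw [growth_eq]
        have hm : cs.simple b ∈ par cs (Y.mir i e) := Subgroup.subset_closure ⟨b, hb, rfl⟩
        have h2 := Finset.single_le_sum (f := fun u : par cs (Y.mir i e) =>
          wtf cs (rr cs φ D ε) u) (fun u _ => ((hw ε hε).pos _).le)
          (Finset.mem_univ (⟨cs.simple b, hm⟩ : par cs (Y.mir i e)))
        refine le_trans (le_of_eq ?_) h2
        simp only
        rw [hval, if_pos hbD]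
      refine squeeze_zero' (g := fun ε : ℝ => ε) ?_ ?_ ?_
      · filter_upwards [self_mem_nhdsWithin] with ε hε
        have : 0 < growth cs (wtf cs (rr cs φ D ε)) (Y.mir i e) :=
          lt_of_lt_of_le (inv_pos.2 hε) (h1 ε hε)
        positivity
      · filter_upwards [self_mem_nhdsWithin] with ε hε
        have hε' : (0 : ℝ) < ε := hε
        have h2 := one_div_le_one_div_of_le (inv_pos.2 hε') (h1 ε hε')
        simpa using h2
      · exact Filter.tendsto_id.mono_left nhdsWithin_le_nhds
  have hT : Filter.Tendsto (fun ε : ℝ => weightedChi cs Y (wtf cs (rr cs φ D ε))) (𝓝[>] 0)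
      (𝓝 (∑ i ∈ Finset.range (Y.len + 1), (-1 : ℝ) ^ i *
        ∑ a : Fin (Y.c i), if Disjoint (Y.mir i (Y.rep i a)) D then 1 else 0)) := by
    unfold weightedChi
    refine tendsto_finsetSum _ fun i _ => ?_
    refine Filter.Tendsto.const_mul _ ?_
    exact tendsto_finsetSum _ fun a _ => hlim i (Y.rep i a)
  have hT0 : Filter.Tendsto (fun ε : ℝ => weightedChi cs Y (wtf cs (rr cs φ D ε))) (𝓝[>] 0)
      (𝓝 0) := by
    refine tendsto_const_nhds.congr' ?_
    filter_upwards [self_mem_nhdsWithin] with ε hε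
    exact (hzero ε hε).symm
  have h1 := tendsto_nhds_unique hT hT0
  have h2 : ((relChi Y D : ℤ) : ℝ) = 0 := by
    rw [← h1]
    unfold relChi
    push_cast
    refine Finset.sum_congr rfl fun i _ => ?_
    rw [Finset.sum_ite, Finset.sum_const_zero, add_zero, Finset.sum_const, nsmul_eq_mul, mul_one]
  exact_mod_cast h2

end

end Pool.Agent.V5helper85.ZD
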