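import Pool.Agent.V5helper85.ZD.Eng
import Pool.Agent.V5helper85.ZD.Brg3
import Pool.Agent.V5helper85.ZD.Lim
import Pool.Agent.V5helper4.ZD.ANA
import Pool.Agent.V5helper4.ZD.GAP
import Pool.Agent.V5helper4.ZD.SUPER
import Pool.Agent.V5helper17.ZD.PROJ
import Pool.Agent.V5helper17.ZD.TRACE
import Pool.Agent.V5helper98.ZD.COMM
import Pool.Agent.V5helper98.ZD.CONT
import Pool.Agent.V5helper98.ZD.DPROP
import Pool.Agent.V5helper52.ZD.CELL
import Pool.Agent.V5helper52.ZD.EXT
import Pool.Agent.Q241.ZD.Ltwo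

/-!
# Project ZD: the final assembly
-/

set_option autoImplicit false
set_option linter.unusedSectionVars false

namespace Pool.Agent.V5helper85.ZD

open Pool.Agent.Q169.ZD
open Pool.Agent.TH38.CX (AcyclicGComplex)
open Pool.Agent.H496R3.ZS (Ell)
open Pool.Agent.H919R4.ZS (FinRes toRed)
open Pool.Agent.TH38.ZT (ExAt exAt_iff)

noncomputable section

/-- restriction to a subgroup -/
def resC {G : Type} [Group G] (U : AcyclicGComplex G) (N : Subgroup G) : AcyclicGComplex N where
  E := U.E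
  act i := MulAction.compHom (U.E i) N.subtype
  bd := U.bd
  bd_smul i g x := U.bd_smul i (g : G) x
  len := U.len
  isEmpty := U.isEmpty
  nonempty := U.nonempty
  exact_zero := U.exact_zero
  exact_succ := U.exact_succ

theorem resC_smul {G : Type} [Group G] (U : AcyclicGComplex G) (N : Subgroup G) (i : ℕ) (n : N)
    (x : U.E i) : (show (resC U N).E i from n • (show (resC U N).E i from x)) =
      (show U.E i from (n : G) • x) := rfl

/-- representatives for a subgroup of finite index -/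
theorem exists_reps {G X : Type} [Group G] [MulAction G X] (N : Subgroup G) [N.FiniteIndex]
    {c : ℕ} (rep : Fin c → X) (h : ∀ x : X, ∃ a, ∃ g : G, g • rep a = x) :
    ∃ (c' : ℕ) (rep' : Fin c' → X), ∀ x : X, ∃! a, ∃ n : N, (n : G) • rep' a = x := by
  classical
  letI : MulAction N X := MulAction.compHom X N.subtype
  have hfin : Finite (Quotient (MulAction.orbitRel N X)) := by
    have : Finite (G ⧸ N) := inferInstance
    refine Finite.of_surjective (α := Fin c × (G ⧸ N))
      (fun p => Quotient.mk (MulAction.orbitRel N X) (p.2.out⁻¹ • rep p.1)) ?_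
    intro q
    obtain ⟨x, rfl⟩ := Quotient.exists_rep q
    obtain ⟨a, g, rfl⟩ := h x
    refine ⟨(a, QuotientGroup.mk g⁻¹), ?_⟩
    apply Quotient.sound
    have h1 : ((QuotientGroup.mk g⁻¹ : G ⧸ N).out)⁻¹ * g⁻¹ ∈ N := by
      rw [← QuotientGroup.eq]
      exact QuotientGroup.out_eq' _
    refine (MulAction.orbitRel_apply).2 ⟨⟨_, h1⟩, ?_⟩
    change (((QuotientGroup.mk g⁻¹ : G ⧸ N).out)⁻¹ * g⁻¹) • g • rep a = _
    rw [← mul_smul, inv_mul_cancel_right]
  obtain ⟨c', ⟨σ⟩⟩ := Finite.exists_equiv_fin (Quotient (MulAction.orbitRel N X))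
  refine ⟨c', fun a => (σ.symm a).out, fun x => ⟨σ (Quotient.mk _ x), ?_, ?_⟩⟩
  · simp only [Equiv.symm_apply_apply]
    have h1 : (MulAction.orbitRel N X) x (Quotient.mk (MulAction.orbitRel N X) x).out :=
      Quotient.exact (Quotient.out_eq _).symm
    obtain ⟨n, hn⟩ := (MulAction.orbitRel_apply).1 h1
    exact ⟨n, hn⟩
  · rintro a ⟨n, hn⟩
    have h1 : Quotient.mk (MulAction.orbitRel N X) x = σ.symm a := by
      rw [← Quotient.out_eq (σ.symm a)]
      apply Quotient.sound
      exact (MulAction.orbitRel_apply).2 ⟨n, hn⟩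
    rw [h1, Equiv.apply_symm_apply]

variable {B : Type} {M : CoxeterMatrix B} {W : Type} [Group W] (cs : CoxeterSystem M W)
  {H : Type} [Group H] [MulAction H B] (φ : H →* MulAut W) (Y : Mirrored H B)

/-- weight functions on `W ⋊ H` -/
theorem wt_ext {E : Ext (W ⋊[φ] H)} (hS : E.S = {s | ∃ b : B, s = ⟨cs.simple b, 1⟩})
    (hL : ∀ g, E.len g = cs.length g.left)
    (hφ : ∀ h b, φ h (cs.simple b) = cs.simple (h • b))
    {p : W → ℝ} (hp : IsWeight cs p) (hi : ∀ h w, p (φ h w) = p w) :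
    Wt E (fun g => p g.left) where
  pos g := hp.pos _
  one := hp.one
  zero_mul h hh g := by
    rw [hL, cs.length_eq_zero_iff] at hh
    rw [SemidirectProduct.mul_left, hh, one_mul, hi]
  mul_zero h hh g := by
    rw [hL, cs.length_eq_zero_iff] at hh
    rw [SemidirectProduct.mul_left, hh, map_one, mul_one]
  mul s hs g hg := by
    rw [hS] at hs
    obtain ⟨b, rfl⟩ := hs
    rw [hL, hL, SemidirectProduct.mul_left] at hg
    change cs.length g.left < cs.length (g.left * φ g.right (cs.simple b)) at hg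
    change p (g.left * φ g.right (cs.simple b)) = p g.left * p (cs.simple b)
    rw [hφ] at hg ⊢
    rw [hp.mul_simple _ _ hg, ← hφ, hi]
  smul s hs g hg := by
    rw [hS] at hs
    obtain ⟨b, rfl⟩ := hs
    rw [hL, hL, SemidirectProduct.mul_left] at hg
    change cs.length g.left < cs.length (cs.simple b * φ 1 g.left) at hg
    change p (cs.simple b * φ 1 g.left) = p (cs.simple b) * p g.left
    rw [map_one, MulAut.one_apply] at hg ⊢
    exact hp.simple_mul _ _ hg

/-- **Main theorem of project ZD**: if all `H_i(X; C*_r(N))` vanish, then so do the weighted Euler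
characteristics. -/
theorem weightedChi_eq_zero (hres : S_RES)
    (hφ : ∀ h b, φ h (cs.simple b) = cs.simple (h • b)) (hY : IsAcyclic cs Y)
    (N : Subgroup (W ⋊[φ] H)) [N.FiniteIndex]
    (hN : ∀ i (e : Y.E i) (w u : W), u ∈ par cs (Y.mir i e) →
      (SemidirectProduct.inl (w * u * w⁻¹) : W ⋊[φ] H) ∈ N → u = 1)
    (X : FinRes N) (hX : ∀ i, Subsingleton (X.homology (toRed N) i)) :
    (∀ i e, Finite (par cs (Y.mir i e))) ∧
    ∀ p : W → ℝ, IsWeight cs p → (∀ h w, p (φ h w) = p w) → weightedChi cs Y p = 0 := by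
  have hpf : ∀ i e, Finite (par cs (Y.mir i e)) := by
    intro i e
    have : Finite ((W ⋊[φ] H) ⧸ N) := inferInstance
    refine Finite.of_injective (β := (W ⋊[φ] H) ⧸ N)
      (fun u => QuotientGroup.mk (SemidirectProduct.inl (u : W))) ?_
    intro u v huv
    have h1 := QuotientGroup.eq.1 huv
    rw [← map_inv, ← map_mul] at h1
    have h2 := hN i e 1 ((u : W)⁻¹ * v) (mul_mem (inv_mem u.2) v.2) (by simpa using h1)
    rw [inv_mul_eq_one] at h2
    exact Subtype.ext h2
  refine ⟨hpf, fun p hp hi => ?_⟩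
  obtain ⟨E, hS, hL⟩ := Pool.Agent.V5helper52.ZD.t_EXT B M W cs H φ hφ
  obtain ⟨U, κ, h1, h2, h3, h4⟩ := Pool.Agent.V5helper52.ZD.t_CELL B M W cs H φ hφ Y hY
  have hU : Cel Y cs φ U κ := ⟨h1, h2, h3, h4⟩
  have hfree : ∀ i (n : N) (e : (resC U N).E i), n • e = e → n = 1 := by
    intro i n x hx
    obtain ⟨e, w, rfl⟩ := hU.surj i x
    have hx' : (n : W ⋊[φ] H) • κ i e w = κ i e w := hx
    rw [hU.act] at hx'
    obtain ⟨h5, h6⟩ := (hU.inj _ _ _ _ _).1 hx'
    have h7 := Y.free _ _ _ h5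
    rw [h5, h7, map_one, MulAut.one_apply, mul_inv_rev] at h6
    have h8 : w⁻¹ * (n : W ⋊[φ] H).left * w ∈ par cs (Y.mir i e) := by
      have := inv_mem h6
      simpa [mul_assoc] using this
    have h9 : (SemidirectProduct.inl (n : W ⋊[φ] H).left : W ⋊[φ] H) = n := by
      conv_rhs => rw [← SemidirectProduct.inl_left_mul_inr_right (n : W ⋊[φ] H)]
      rw [h7, map_one, mul_one]
    have h10 := hN i e w _ h8 (by
      have h11 : w * (w⁻¹ * (n : W ⋊[φ] H).left * w) * w⁻¹ = (n : W ⋊[φ] H).left := by group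
      rw [h11, h9]
      exact n.2)
    have h12 : (n : W ⋊[φ] H).left = 1 := by
      have h13 : (n : W ⋊[φ] H).left = w * (w⁻¹ * (n : W ⋊[φ] H).left * w) * w⁻¹ := by group
      rw [h13, h10]
      group
    apply Subtype.ext
    rw [← h9, h12, map_one]
    rfl
  have hreps : ∀ i, ∃ (c' : ℕ) (rep' : Fin c' → U.E i), ∀ x : U.E i, ∃! a, ∃ n : N,
      (n : W ⋊[φ] H) • rep' a = x := by
    intro i
    refine exists_reps N (fun a : Fin (Y.c i) => κ i (Y.rep i a) 1) fun x => ?_
    obtain ⟨e, w, rfl⟩ := hU.surj i x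
    refine ⟨(dec Y i e).2, ⟨w, (dec Y i e).1⟩, ?_⟩
    rw [κ_smul Y cs φ _ _ _ hU]
    change κ i ((dec Y i e).1 • Y.rep i (dec Y i e).2) w = _
    rw [dec_spec]
  choose c' rep' hrep' using hreps
  have hL2 := Pool.Agent.Q241.ZD.ltwo hres N (resC U N) hfree c' rep' (fun i x => hrep' i x) X
    fun i => (exAt_iff X (toRed N) i).2 (hX i)
  have hex := exact_one Y cs φ hφ hpf hU hS hL hL2
  set C := CX Y cs φ hφ hpf hU hS hL with hC
  have hP := t_PROJ (W ⋊[φ] H) E (Ix Y) C
  have h0 := eng E C hP (Pool.Agent.V5helper98.ZD.t_CONT _ E _ C)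
    (Pool.Agent.V5helper98.ZD.t_COMM _ E _ C hP) (t_TRACE _ E (Ix Y))
    (Pool.Agent.V5helper4.ZD.t_GAP _) (Pool.Agent.V5helper4.ZD.t_SMALL _)
    (Pool.Agent.V5helper4.ZD.t_SUPER _) Pool.Agent.V5helper4.ZD.t_ANA
    (Pool.Agent.V5helper98.ZD.t_DPROP _ E _ C) hex (fun g => p g.left)
    (wt_ext cs φ hS hL hφ hp hi)
  have hwt : ∀ j : Ix Y, C.wt (fun g => p g.left) j =
      growth cs p (Y.mir j.1 (Y.rep j.1 j.2)) := by
    intro j
    have := hpf j.1 (Y.rep j.1 j.2)
    have := Fintype.ofFinite (par cs (Y.mir j.1 (Y.rep j.1 j.2)))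
    rw [growth_eq]
    unfold Cx.wt
    symm
    refine Finset.sum_bij (fun u _ => SemidirectProduct.inl (u : W)) ?_ ?_ ?_ ?_
    · intro u _
      rw [C.mem_U]
      change _ ∈ Subgroup.closure (TT Y cs φ j)
      rw [closure_TT]
      exact ⟨_, u.2, rfl⟩
    · intro u _ v _ huv
      exact Subtype.ext (SemidirectProduct.inl_injective huv)
    · intro g hg
      rw [C.mem_U] at hg
      change _ ∈ Subgroup.closure (TT Y cs φ j) at hg
      rw [closure_TT] at hg
      obtain ⟨u, hu, rfl⟩ := hg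
      exact ⟨⟨u, hu⟩, Finset.mem_univ _, rfl⟩
    · intro u _
      rfl
  have h5 : ∑ j : Ix Y, (-1 : ℝ) ^ (j.1 : ℕ) / growth cs p (Y.mir j.1 (Y.rep j.1 j.2)) = 0 := by
    rw [← h0]
    exact Finset.sum_congr rfl fun j _ => by rw [hwt]; rfl
  unfold weightedChi
  rw [Finset.sum_range, ← h5, Fintype.sum_sigma]
  refine Finset.sum_congr rfl fun i _ => ?_
  rw [Finset.mul_sum]
  refine Finset.sum_congr rfl fun a _ => ?_
  rw [mul_one_div]

end

end Pool.Agent.V5helper85.ZD
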