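import Pool.Agent.V5helper85.ZD.Fin
import Pool.Agent.V5helper85.ZD.Defs2
import Pool.Agent.V5helper82.FT.Res

/-!
# Project ZD: the theorem
-/

set_option autoImplicit false

namespace Pool.Agent.V5helper85.ZD

open Pool.Agent.Q169.ZD
open Pool.Agent.H919R4.ZS (FinRes toRed)

theorem classClosed_iUnion {B : Type} {M : CoxeterMatrix B} {W : Type} [Group W]
    {cs : CoxeterSystem M W} {H : Type} [Group H] [MulAction H B] {φ : H →* MulAut W} {n : ℕ}
    {O : Fin n → Set B} (hO : ∀ k, ClassClosed cs φ (O k)) (s : Finset (Fin n)) :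
    ClassClosed cs φ (⋃ k ∈ s, O k) := by
  intro b hb b' hb'
  simp only [Set.mem_iUnion, exists_prop, not_exists, not_and] at hb hb'
  obtain ⟨k, hk, hbk⟩ := hb
  exact hO k b hbk b' (hb' k hk)

/-- inclusion and exclusion -/
theorem mirrorChi_eq {B : Type} {H : Type} [Group H] [MulAction H B] (Y : Mirrored H B) {n : ℕ}
    (O : Fin n → Set B) :
    mirrorChi Y O = ∑ s : Finset (Fin n), (-1 : ℤ) ^ s.card * relChi Y (⋃ k ∈ s, O k) := by
  classical
  have key : ∀ T : Set B, (if ∀ k, (T ∩ O k).Nonempty then (1 : ℤ) else 0) =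
      ∑ s : Finset (Fin n), (-1 : ℤ) ^ s.card * if Disjoint T (⋃ k ∈ s, O k) then 1 else 0 := by
    intro T
    have h1 : (if ∀ k, (T ∩ O k).Nonempty then (1 : ℤ) else 0) =
        ∏ k : Fin n, (1 + -(if Disjoint T (O k) then 1 else 0)) := by
      by_cases h : ∀ k, (T ∩ O k).Nonempty
      · rw [if_pos h, Finset.prod_eq_one]
        intro k _
        rw [if_neg (Set.not_disjoint_iff_nonempty_inter.2 (h k))]
        norm_num
      · rw [if_neg h]
        push Not at h
        obtain ⟨k, hk⟩ := h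
        rw [Finset.prod_eq_zero (Finset.mem_univ k)]
        rw [if_pos (Set.disjoint_iff_inter_eq_empty.2 hk)]
        norm_num
    rw [h1, Finset.prod_one_add, Finset.powerset_univ]
    refine Finset.sum_congr rfl fun s _ => ?_
    rw [Finset.prod_neg]
    congr 1
    by_cases h : ∀ i ∈ s, Disjoint T (O i)
    · rw [Finset.prod_eq_one fun i hi => if_pos (h i hi), if_pos]
      simpa only [Set.disjoint_iUnion_right] using h
    · have h' := h
      push Not at h'
      obtain ⟨i, hi, hd⟩ := h'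
      rw [Finset.prod_eq_zero hi (if_neg hd), if_neg]
      simpa only [Set.disjoint_iUnion_right] using h
  have hc : ∀ (i : ℕ) (P : Fin (Y.c i) → Prop) [DecidablePred P],
      (((Finset.univ.filter P).card : ℕ) : ℤ) = ∑ a, if P a then 1 else 0 := by
    intro i P _
    rw [Finset.sum_boole]
  unfold mirrorChi relChi
  simp only [Finset.mul_sum]
  rw [Finset.sum_comm]
  refine Finset.sum_congr rfl fun i _ => ?_
  rw [hc]
  have h2 : ∀ s : Finset (Fin n), (-1 : ℤ) ^ s.card * ((-1) ^ i *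
      ((Finset.univ.filter fun a : Fin (Y.c i) =>
        Disjoint (Y.mir i (Y.rep i a)) (⋃ k ∈ s, O k)).card : ℤ)) =
      ∑ a : Fin (Y.c i), (-1) ^ i * ((-1 : ℤ) ^ s.card *
        if Disjoint (Y.mir i (Y.rep i a)) (⋃ k ∈ s, O k) then 1 else 0) := by
    intro s
    rw [hc, Finset.mul_sum, Finset.mul_sum]
    exact Finset.sum_congr rfl fun a _ => by ring
  rw [Finset.sum_congr rfl fun s _ => h2 s, Finset.sum_comm, Finset.mul_sum]
  refine Finset.sum_congr rfl fun a _ => ?_
  rw [key, Finset.mul_sum]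

theorem main {B : Type} {M : CoxeterMatrix B} {W : Type} [Group W] (cs : CoxeterSystem M W)
    {H : Type} [Group H] [MulAction H B] (φ : H →* MulAut W)
    (hφ : ∀ h b, φ h (cs.simple b) = cs.simple (h • b))
    (Y : Mirrored H B) (hY : IsAcyclic cs Y)
    (N : Subgroup (W ⋊[φ] H)) [N.FiniteIndex]
    (hN : ∀ (i : ℕ) (e : Y.E i) (w u : W), u ∈ par cs (Y.mir i e) →
      (SemidirectProduct.inl (w * u * w⁻¹) : W ⋊[φ] H) ∈ N → u = 1)
    (hχ : (∃ p : W → ℝ, IsWeight cs p ∧ (∀ h w, p (φ h w) = p w) ∧ weightedChi cs Y p ≠ 0) ∨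
      ∃ (n : ℕ) (O : Fin n → Set B), (∀ k, ClassClosed cs φ (O k)) ∧ mirrorChi Y O ≠ 0)
    (X : FinRes N) : ∃ i ≤ X.len, Nontrivial (X.homology (toRed N) i) := by
  by_contra hcon
  push Not at hcon
  have hX : ∀ i, Subsingleton (X.homology (toRed N) i) := by
    intro i
    by_cases hi : i ≤ X.len
    · exact hcon i hi
    · have h1 : X.n i = 0 := X.n_eq_zero i (not_le.1 hi)
      have h2 : IsEmpty (Fin (X.n i)) := by
        rw [h1]
        infer_instance
      have h3 : Subsingleton (X.cyc (toRed N) i) :=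
        ⟨fun a b => Subtype.ext (funext fun j => h2.elim j)⟩
      refine ⟨fun a b => ?_⟩
      obtain ⟨a, rfl⟩ := Submodule.Quotient.mk_surjective _ a
      obtain ⟨b, rfl⟩ := Submodule.Quotient.mk_surjective _ b
      rw [h3.elim a b]
  obtain ⟨hpf, h0⟩ := weightedChi_eq_zero cs φ Y Pool.Agent.V5helper82.FT.res hφ hY N hN X hX
  rcases hχ with ⟨p, hp, hi, hne⟩ | ⟨n, O, hO, hne⟩
  · exact hne (h0 p hp hi)
  · refine hne ?_
    rw [mirrorChi_eq]
    refine Finset.sum_eq_zero fun s _ => ?_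
    rw [relChi_eq_zero cs Y φ hφ hpf h0 _ (classClosed_iUnion hO s), mul_zero]

end Pool.Agent.V5helper85.ZD
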